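import Pool.Agent.U131.SX.Fin
import Pool.Agent.U131.SR.Chr

/-! Auxiliary primes: the formulation with `L`-functions of characters. -/

set_option autoImplicit false
set_option linter.style.haveILetI false

namespace Pool.Agent.U131.SX
open NumberField Module IntermediateField
open Pool.Agent.K4H33.SK (Qbar GQ Fixes IsZeta AbelianRoot)
open Pool.Agent.K4H33.SK.Stmt (Sub Ideals nrm Cop prd IsArtin cnt)
open Pool.Agent.U131.SR.Lay

/-- `L(0, χ) = 0` and `L'(0, χ) = -(1/4) ∑ χ(σ) log |σ η|` for all characters `χ` of `H/F`. -/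
def LFormulaHalf (ι : Qbar →+* ℂ) (F H : Sub) [NumberField F] (𝔣 : Ideals F)
    (art : Ideals F → GQ) (η : Qbar) : Prop :=
  ∀ χ : GQ → ℂ, IsCharacter F H χ → ∀ T : Finset GQ, Represents F H T →
    ∃ Λ : ℂ → ℂ, IsContinuation (lCoef F 𝔣 art χ) Λ ∧ Λ 0 = 0 ∧
      deriv Λ 0 = -(1 / 4) * logSum ι T χ η

/-- The integral version, with characters, up to a factor two: a unit `η` of `H` with
`L'(0, χ) = -(1/4) ∑ χ(σ) log |σ η|` for all characters, of absolute value one at the places not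
above the split one, such that `H (√η)` is abelian over `F`. -/
def CharHalf (ι : Qbar →+* ℂ) (F H : Sub) [NumberField F] (𝔣 : Ideals F)
    (art : Ideals F → GQ) : Prop :=
  ∃ η : Qbar, η ∈ H ∧ IsUnitInt η ∧ Circle ι F η ∧ LFormulaHalf ι F H 𝔣 art η ∧
    AbelianRoot F 2 η

theorem char_half {ι w : Qbar →+* ℂ} {F H : Sub} [NumberField F] {𝔣 : Ideals F}
    {art : Ideals F → GQ} {z : GQ} {Z : GQ → ℂ → ℂ} (h : Setting ι w F H 𝔣 art z Z)
    (hS : StarkDouble ι F H Z) : CharHalf ι F H 𝔣 art := by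
  obtain ⟨η, h1, h2, h3, h4, h5⟩ := hS
  refine ⟨η, h1, h2, h4, fun χ hχ S hS => ?_, h5⟩
  have hz := h.hecke
  refine ⟨fun s => ∑ t ∈ S, χ t * Z t s, ⟨?_, ?_⟩, ?_, ?_⟩
  · refine DifferentiableOn.fun_sum fun t ht => ?_
    exact (hz t (hS.fix t ht)).1.1.const_mul _
  · intro s hs
    have h3 : ∀ t ∈ S, LSeriesHasSum (χ t • fun n => (cnt F H 𝔣 art t n : ℂ)) s
        (χ t * Z t s) := fun t ht => ((hz t (hS.fix t ht)).1.2 s hs).smul (χ t)
    have h4 := LSeriesHasSum.sum h3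
    refine (LSeriesHasSum_congr s _ (fun {n} _ => ?_)).1 h4
    rw [lCoef_eq h.artin.fix h.le hχ hS n, Finset.sum_apply]
    rfl
  · refine Finset.sum_eq_zero fun t ht => ?_
    rw [(hz t (hS.fix t ht)).2.1, mul_zero]
  · have hn : ({1}ᶜ : Set ℂ) ∈ nhds (0 : ℂ) := isOpen_compl_singleton.mem_nhds (by simp)
    have h5 : HasDerivAt (fun s => ∑ t ∈ S, χ t * Z t s) (∑ t ∈ S, χ t * deriv (Z t) 0) 0 := by
      refine HasDerivAt.fun_sum fun t ht => ?_
      exact (((hz t (hS.fix t ht)).1.1.differentiableAt hn).hasDerivAt).const_mul _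
    rw [h5.deriv]
    unfold logSum
    rw [Finset.mul_sum]
    refine Finset.sum_congr rfl fun t ht => ?_
    rw [h3 t (hS.fix t ht)]
    ring

end Pool.Agent.U131.SX
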