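import Pool.Agent.U131.SR.Ray
import Pool.Agent.U131.SR.Lay

/-! Auxiliary primes and Stark's conjecture at a real split place. -/

set_option autoImplicit false
set_option linter.style.haveILetI false

namespace Pool.Agent.U131.SX
open NumberField Module IntermediateField Pool.Agent.K4H33.SK Pool.Agent.U131.SR
open Pool.Agent.K4H33.SK.Stmt (Sub)

/-- `μ` is a unit of `H` with the logarithms of the Stark unit for an auxiliary prime with symbol
`g`; `D` is the derivative at `0` of the partial zeta functions. -/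
structure Bas (ι : Qbar →+* ℂ) (F H : Sub) (D : GQ → ℂ) (g : GQ) (μ : Qbar) : Prop where
  mem : μ ∈ H
  ne : μ ≠ 0
  int : IsIntegral ℤ μ
  int' : IsIntegral ℤ μ⁻¹
  log : ∀ σ : GQ, Fixes F σ → (Real.log ‖ι (σ μ)‖ : ℂ) = -2 * (D σ - D (g⁻¹ * σ))
  circ : ∀ w : Qbar →+* ℂ, (∃ x ∈ F, w x ≠ ι x) → ‖w μ‖ = 1

/-- all conjugates over `F` are positive -/
def PosAll (ι : Qbar →+* ℂ) (F : Sub) (μ : Qbar) : Prop := ∀ σ : GQ, Fixes F σ → Pos ι (σ μ)

/-- the setting -/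
structure Set0 (ι : Qbar →+* ℂ) (F H : Sub) (D : GQ → ℂ) (z : GQ) : Prop where
  le : F ≤ H
  gal : ∀ σ : GQ, Fixes F σ → ∀ x ∈ H, σ x ∈ H
  ab : ∀ σ τ : GQ, Fixes F σ → Fixes F τ → ∀ x ∈ H, σ (τ x) = τ (σ x)
  D_congr : ∀ σ τ : GQ, Fixes F σ → Fixes F τ → (∀ x ∈ H, σ x = τ x) → D σ = D τ
  z_F : Fixes F z
  zz : ∀ x ∈ H, z (z x) = x
  D_z : ∀ σ : GQ, Fixes F σ → D σ + D (z * σ) = 0

variable {ι : Qbar →+* ℂ} {F H : Sub} {D : GQ → ℂ} {z : GQ}

lemma Set0.D_comm (h : Set0 ι F H D z) {σ τ : GQ} (hσ : Fixes F σ) (hτ : Fixes F τ) :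
    D (σ * τ) = D (τ * σ) :=
  h.D_congr _ _ (hσ.mul hτ) (hτ.mul hσ) fun x hx => h.ab σ τ hσ hτ x hx

lemma ne_app {σ : GQ} {x : Qbar} (h : x ≠ 0) : σ x ≠ 0 := by simpa using h

lemma norm_ne {x : Qbar} (h : x ≠ 0) : ‖ι x‖ ≠ 0 := by
  rw [norm_ne_zero_iff, Ne, map_eq_zero]
  exact h

lemma comp_differ {w : Qbar →+* ℂ} {g : GQ} (hg : Fixes F g) (hw : ∃ x ∈ F, w x ≠ ι x) :
    ∃ x ∈ F, (w.comp (g : Qbar →+* Qbar)) x ≠ ι x := by
  obtain ⟨x, hx, hx2⟩ := hw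
  refine ⟨x, hx, ?_⟩
  have h9 : (w.comp (g : Qbar →+* Qbar)) x = w x := congrArg w (hg x hx)
  rw [h9]
  exact hx2

lemma int_app {g : GQ} {x : Qbar} (h : IsIntegral ℤ x) : IsIntegral ℤ (g x) :=
  h.map (g : Qbar →+* Qbar).toIntAlgHom

lemma Pos.mul {x y : Qbar} (hx : Pos ι x) (hy : Pos ι y) : Pos ι (x * y) := by
  obtain ⟨h1, h2⟩ := hx
  obtain ⟨h3, h4⟩ := hy
  have e1 : ι x = ((ι x).re : ℂ) := Complex.ext (by simp) (by simp [h1])
  have e2 : ι y = ((ι y).re : ℂ) := Complex.ext (by simp) (by simp [h3])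
  have e3 : ι (x * y) = (((ι x).re * (ι y).re : ℝ) : ℂ) := by
    rw [map_mul, e1, e2]
    push_cast
    simp
  unfold Pos
  rw [e3]
  exact ⟨Complex.ofReal_im _, by rw [Complex.ofReal_re]; positivity⟩

lemma Pos.one : Pos ι 1 := by
  unfold Pos
  rw [map_one]
  simp

lemma Pos.inv {x : Qbar} (hx : Pos ι x) : Pos ι x⁻¹ := by
  have h := Pos.div Pos.one hx
  rwa [one_div] at h

lemma pos_eq {x y : Qbar} (hx : Pos ι x) (hy : Pos ι y)
    (h : Real.log ‖ι x‖ = Real.log ‖ι y‖) : x = y := by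
  apply ι.injective
  obtain ⟨h1, h2⟩ := hx
  obtain ⟨h3, h4⟩ := hy
  have e1 : ι x = ((ι x).re : ℂ) := Complex.ext (by simp) (by simp [h1])
  have e2 : ι y = ((ι y).re : ℂ) := Complex.ext (by simp) (by simp [h3])
  have n1 : ‖ι x‖ = (ι x).re := by
    rw [e1, Complex.norm_real, Real.norm_of_nonneg (by simpa using h2.le)]
    simp
  have n2 : ‖ι y‖ = (ι y).re := by
    rw [e2, Complex.norm_real, Real.norm_of_nonneg (by simpa using h4.le)]
    simp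
  rw [n1, n2] at h
  have h5 := Real.log_injOn_pos (Set.mem_Ioi.2 h2) (Set.mem_Ioi.2 h4) h
  rw [e1, e2, h5]

/-- the trivial element -/
lemma bas_one (h : Set0 ι F H D z) {g : GQ} (hg : Fixes F g) (hgH : ∀ x ∈ H, g x = x) :
    Bas ι F H D g 1 where
  mem := one_mem _
  ne := one_ne_zero
  int := isIntegral_one
  int' := by rw [inv_one]; exact isIntegral_one
  log := fun σ hσ => by
    have h1 : D (g⁻¹ * σ) = D σ := by
      refine h.D_congr _ _ (hg.inv.mul hσ) hσ fun x hx => ?_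
      rw [AlgEquiv.mul_apply, AlgEquiv.aut_inv, AlgEquiv.symm_apply_eq]
      exact (hgH _ (h.gal σ hσ x hx)).symm
    rw [h1]
    simp
  circ := fun w _ => by simp

lemma bas_mul (h : Set0 ι F H D z) {g k : GQ} (hg : Fixes F g) (hk : Fixes F k) {μ ν : Qbar}
    (h1 : Bas ι F H D g μ) (h2 : Bas ι F H D k ν) : Bas ι F H D (g * k) (μ * g⁻¹ ν) where
  mem := mul_mem h1.mem (h.gal _ hg.inv _ h2.mem)
  ne := mul_ne_zero h1.ne (ne_app h2.ne)
  int := h1.int.mul (int_app h2.int)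
  int' := by
    rw [mul_inv, ← map_inv₀]
    exact h1.int'.mul (int_app h2.int')
  log := fun σ hσ => by
    have e1 := h1.log σ hσ
    have e2 := h2.log (σ * g⁻¹) (hσ.mul hg.inv)
    have e3 : ‖ι (σ (μ * g⁻¹ ν))‖ = ‖ι (σ μ)‖ * ‖ι ((σ * g⁻¹) ν)‖ := by
      rw [map_mul, map_mul, norm_mul]
      rfl
    rw [e3, Real.log_mul (norm_ne (ne_app h1.ne)) (norm_ne (ne_app h2.ne))]
    push_cast
    rw [e1, e2, h.D_comm hσ hg.inv]
    have e4 : D (k⁻¹ * (σ * g⁻¹)) = D ((g * k)⁻¹ * σ) := by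
      rw [mul_inv_rev, mul_assoc]
      refine h.D_congr _ _ (hk.inv.mul (hσ.mul hg.inv)) (hk.inv.mul (hg.inv.mul hσ)) fun x hx => ?_
      rw [AlgEquiv.mul_apply, AlgEquiv.mul_apply k⁻¹]
      congr 1
      exact h.ab σ g⁻¹ hσ hg.inv x hx
    rw [e4]
    ring
  circ := fun w hw => by
    have h8 := h2.circ _ (comp_differ hg.inv hw)
    have h9 : (w.comp ((g⁻¹ : GQ) : Qbar →+* Qbar)) ν = w (g⁻¹ ν) := rfl
    rw [h9] at h8
    rw [map_mul, norm_mul, h1.circ w hw, h8, one_mul]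

lemma bas_inv (h : Set0 ι F H D z) {g : GQ} (hg : Fixes F g) {μ : Qbar}
    (h1 : Bas ι F H D g μ) : Bas ι F H D g⁻¹ (g μ)⁻¹ where
  mem := inv_mem (h.gal _ hg _ h1.mem)
  ne := inv_ne_zero (ne_app h1.ne)
  int := by
    rw [← map_inv₀]
    exact int_app h1.int'
  int' := by
    rw [inv_inv]
    exact int_app h1.int
  log := fun σ hσ => by
    have e1 := h1.log (σ * g) (hσ.mul hg)
    have e3 : ‖ι (σ (g μ)⁻¹)‖ = ‖ι ((σ * g) μ)‖⁻¹ := by
      rw [map_inv₀, map_inv₀, norm_inv]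
      rfl
    rw [e3, Real.log_inv]
    push_cast
    rw [e1, inv_inv, h.D_comm hσ hg]
    have e5 : D (g⁻¹ * (σ * g)) = D σ := by
      have e6 : D (g⁻¹ * (σ * g)) = D (g⁻¹ * (g * σ)) := by
        refine h.D_congr _ _ (hg.inv.mul (hσ.mul hg)) (hg.inv.mul (hg.mul hσ)) fun x hx => ?_
        rw [AlgEquiv.mul_apply, AlgEquiv.mul_apply g⁻¹]
        congr 1
        exact h.ab σ g hσ hg x hx
      rw [e6, inv_mul_cancel_left]
    rw [e5]
    ring
  circ := fun w hw => by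
    have h8 := h1.circ _ (comp_differ hg hw)
    have h9 : (w.comp (g : Qbar →+* Qbar)) μ = w (g μ) := rfl
    rw [h9] at h8
    rw [map_inv₀, norm_inv, h8, inv_one]

lemma bas_congr (h : Set0 ι F H D z) {g k : GQ} (hg : Fixes F g) (hk : Fixes F k)
    (hgk : ∀ x ∈ H, g x = k x) {μ : Qbar} (h1 : Bas ι F H D g μ) : Bas ι F H D k μ where
  mem := h1.mem
  ne := h1.ne
  int := h1.int
  int' := h1.int'
  log := fun σ hσ => by
    rw [h1.log σ hσ]
    congr 2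
    refine h.D_congr _ _ (hg.inv.mul hσ) (hk.inv.mul hσ) fun x hx => ?_
    have hy := h.gal σ hσ x hx
    rw [AlgEquiv.mul_apply, AlgEquiv.mul_apply, AlgEquiv.aut_inv, AlgEquiv.symm_apply_eq,
      hgk _ (h.gal _ hk.inv _ hy), AlgEquiv.aut_inv, AlgEquiv.apply_symm_apply]
  circ := h1.circ

/-! ### (A) -/

theorem partA (h : Set0 ι F H D z) {η : Qbar} (hη : Bas ι F H D z η)
    (hab : AbelianRoot F 2 η) {g : GQ} (hg : Fixes F g) : ∃ μ, Bas ι F H D g μ := by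
  obtain ⟨lam, hlam⟩ := IsAlgClosed.exists_pow_nat_eq η (n := 2) (by norm_num)
  have hlam0 : lam ≠ 0 := by
    rintro rfl
    rw [zero_pow two_ne_zero] at hlam
    exact hη.ne hlam.symm
  have hgl : g⁻¹ lam ≠ 0 := ne_app hlam0
  have hsq : (lam / g⁻¹ lam) ^ 2 = η / g⁻¹ η := by
    rw [div_pow, ← map_pow, hlam]
  have hDη : ∀ σ : GQ, Fixes F σ → (Real.log ‖ι (σ η)‖ : ℂ) = -4 * D σ := by
    intro σ hσ
    rw [hη.log σ hσ]
    have h1 : D (z⁻¹ * σ) = D (z * σ) := by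
      refine h.D_congr _ _ (h.z_F.inv.mul hσ) (h.z_F.mul hσ) fun x hx => ?_
      rw [AlgEquiv.mul_apply, AlgEquiv.mul_apply, AlgEquiv.aut_inv, AlgEquiv.symm_apply_eq]
      exact (h.zz _ (h.gal σ hσ x hx)).symm
    have h2 := h.D_z σ hσ
    rw [h1]
    linear_combination 2 * h2
  refine ⟨lam / g⁻¹ lam, ?_, div_ne_zero hlam0 hgl, ?_, ?_, ?_, ?_⟩
  · apply mem_of_fixed
    intro τ hτ
    have hτF : Fixes F τ := hτ.mono h.le
    have h1 : (τ lam / lam) ^ 2 = 1 := by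
      rw [div_pow, ← map_pow, hlam, hτ η hη.mem, div_self hη.ne]
    have h2 : τ lam / lam = 1 ∨ τ lam / lam = -1 := by
      have h0 : (τ lam / lam - 1) * (τ lam / lam + 1) = 0 := by linear_combination h1
      rcases mul_eq_zero.1 h0 with h0 | h0
      · exact Or.inl (sub_eq_zero.1 h0)
      · exact Or.inr (eq_neg_of_add_eq_zero_left h0)
    have h3 : τ (g⁻¹ lam) = g⁻¹ (τ lam) := hab lam hlam τ g⁻¹ hτF hg.inv
    rcases h2 with h2 | h2
    · have h4 : τ lam = lam := by rwa [div_eq_one_iff_eq hlam0] at h2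
      rw [map_div₀, h3, h4]
    · have h4 : τ lam = -lam := by
        rw [div_eq_iff hlam0] at h2
        rw [h2]; ring
      rw [map_div₀, h3, h4, map_neg, neg_div_neg_eq]
  · refine IsIntegral.of_pow (n := 2) (by norm_num) ?_
    rw [hsq, div_eq_mul_inv, ← map_inv₀]
    exact hη.int.mul (int_app hη.int')
  · refine IsIntegral.of_pow (n := 2) (by norm_num) ?_
    rw [inv_pow, hsq, inv_div, div_eq_mul_inv]
    exact (int_app hη.int).mul hη.int'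
  · intro σ hσ
    have e1 := hDη σ hσ
    have e2 := hDη (σ * g⁻¹) (hσ.mul hg.inv)
    have e3 : 2 * Real.log ‖ι (σ (lam / g⁻¹ lam))‖ =
        Real.log ‖ι (σ η)‖ - Real.log ‖ι ((σ * g⁻¹) η)‖ := by
      rw [← Real.log_div (norm_ne (ne_app hη.ne)) (norm_ne (ne_app hη.ne))]
      have h1 : ‖ι (σ η)‖ / ‖ι ((σ * g⁻¹) η)‖ = ‖ι (σ (lam / g⁻¹ lam))‖ ^ 2 := by
        rw [← norm_pow, ← map_pow, ← map_pow, hsq, map_div₀, map_div₀, norm_div]
        rfl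
      rw [h1, Real.log_pow]
      norm_num
    have e4 : (2 : ℂ) * (Real.log ‖ι (σ (lam / g⁻¹ lam))‖ : ℂ) =
        -4 * D σ - -4 * D (σ * g⁻¹) := by
      rw [← e1, ← e2]
      exact_mod_cast e3
    rw [← h.D_comm hσ hg.inv]
    have e5 : (Real.log ‖ι (σ (lam / g⁻¹ lam))‖ : ℂ) = (1 / 2) * (2 *
      (Real.log ‖ι (σ (lam / g⁻¹ lam))‖ : ℂ)) := by ring
    rw [e5, e4]
    ring
  · intro w hw
    have h8 := hη.circ _ (comp_differ hg.inv hw)
    have h9 : (w.comp ((g⁻¹ : GQ) : Qbar →+* Qbar)) η = w (g⁻¹ η) := rfl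
    rw [h9] at h8
    have h1 : ‖w (lam / g⁻¹ lam)‖ ^ 2 = 1 := by
      rw [← norm_pow, ← map_pow, hsq, map_div₀, norm_div, hη.circ w hw, h8, div_one]
    exact (pow_eq_one_iff_of_nonneg (norm_nonneg _) two_ne_zero).1 h1

/-! ### (B) -/

/-- the elements which have a unit of a given kind -/
def Has (ι : Qbar →+* ℂ) (F H : Sub) (D : GQ → ℂ) (Q : Qbar → Prop) (g : GQ) : Prop :=
  Fixes F g ∧ ∃ μ, Bas ι F H D g μ ∧ Q μ

/-- the closure of the symbols of the auxiliary primes -/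
theorem gen (h : Set0 ι F H D z) {Q : Qbar → Prop} (q1 : Q 1)
    (qm : ∀ μ ν, μ ∈ H → ν ∈ H → Q μ → Q ν → Q (μ * ν)) (qi : ∀ μ, μ ∈ H → Q μ → Q μ⁻¹)
    (qa : ∀ μ g, μ ∈ H → Fixes F g → Q μ → Q (g μ)) {S : Set GQ}
    (hS : ∀ g ∈ S, Has ι F H D Q g) {g : GQ} (hg : Fixes F g)
    (hgS : ∃ k ∈ Subgroup.closure S, ∀ x ∈ H, k x = g x) : ∃ μ, Bas ι F H D g μ ∧ Q μ := by
  obtain ⟨k, hk, hkg⟩ := hgS
  have key : ∀ k ∈ Subgroup.closure S, Has ι F H D Q k := by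
    intro k hk
    induction hk using Subgroup.closure_induction with
    | mem x hx => exact hS x hx
    | one => exact ⟨Fixes.one F, 1, bas_one h (Fixes.one F) (fun _ _ => rfl), q1⟩
    | mul x y _ _ hx hy =>
      obtain ⟨h1, μ, h2, h3⟩ := hx
      obtain ⟨h4, ν, h5, h6⟩ := hy
      exact ⟨h1.mul h4, _, bas_mul h h1 h4 h2 h5,
        qm _ _ h2.mem (h.gal _ h1.inv _ h5.mem) h3 (qa _ _ h5.mem h1.inv h6)⟩
    | inv x _ hx =>
      obtain ⟨h1, μ, h2, h3⟩ := hx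
      exact ⟨h1.inv, _, bas_inv h h1 h2, qi _ (h.gal _ h1 _ h2.mem) (qa _ _ h2.mem h1 h3)⟩
  obtain ⟨h1, μ, h2, h3⟩ := key k hk
  exact ⟨μ, bas_congr h h1 hg hkg h2, h3⟩

theorem partB (h : Set0 ι F H D z)
    (hall : ∀ g : GQ, Fixes F g → ∃ μ, Bas ι F H D g μ ∧ PosAll ι F μ) {η : Qbar}
    (hη : Bas ι F H D z η) (hpos : PosAll ι F η) : AbelianRoot F 2 η := by
  have hDη : ∀ σ : GQ, Fixes F σ → (Real.log ‖ι (σ η)‖ : ℂ) = -4 * D σ := by
    intro σ hσ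
    rw [hη.log σ hσ]
    have h1 : D (z⁻¹ * σ) = D (z * σ) := by
      refine h.D_congr _ _ (h.z_F.inv.mul hσ) (h.z_F.mul hσ) fun x hx => ?_
      rw [AlgEquiv.mul_apply, AlgEquiv.mul_apply, AlgEquiv.aut_inv, AlgEquiv.symm_apply_eq]
      exact (h.zz _ (h.gal σ hσ x hx)).symm
    have h2 := h.D_z σ hσ
    rw [h1]
    linear_combination 2 * h2
  have hone : Fixes F (1 : GQ) := Fixes.one F
  -- the elements `a_σ`
  have ha : ∀ σ : GQ, Fixes F σ → ∃ a : Qbar, a ≠ 0 ∧ PosAll ι F a ∧ σ η = η * a ^ 2 ∧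
      ∀ τ : GQ, Fixes F τ → (Real.log ‖ι (τ a)‖ : ℂ) = -2 * (D (σ * τ) - D τ) := by
    intro σ hσ
    obtain ⟨μ, h1, h2⟩ := hall σ⁻¹ hσ.inv
    have hlog : ∀ τ : GQ, Fixes F τ → (Real.log ‖ι (τ μ⁻¹)‖ : ℂ) = -2 * (D (σ * τ) - D τ) := by
      intro τ hτ
      have e1 := h1.log τ hτ
      rw [inv_inv] at e1
      rw [map_inv₀, map_inv₀, norm_inv, Real.log_inv]
      push_cast
      rw [e1]
      ring
    have hposa : PosAll ι F μ⁻¹ := fun τ hτ => by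
      rw [map_inv₀]
      exact Pos.inv (h2 τ hτ)
    refine ⟨μ⁻¹, inv_ne_zero h1.ne, hposa, ?_, hlog⟩
    refine pos_eq (ι := ι) (hpos σ hσ) ?_ ?_
    · have h3 := hpos 1 hone
      have h4 := hposa 1 hone
      rw [AlgEquiv.one_apply] at h3 h4
      rw [pow_two]
      exact Pos.mul h3 (Pos.mul h4 h4)
    · have e1 := hDη σ hσ
      have e2 := hDη 1 hone
      have e3 := hlog 1 hone
      rw [AlgEquiv.one_apply] at e2 e3
      rw [mul_one] at e3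
      have e4 : Real.log ‖ι (η * μ⁻¹ ^ 2)‖ = Real.log ‖ι η‖ + 2 * Real.log ‖ι μ⁻¹‖ := by
        rw [map_mul, norm_mul, Real.log_mul (norm_ne hη.ne)
          (norm_ne (pow_ne_zero 2 (inv_ne_zero h1.ne))), map_pow, norm_pow, Real.log_pow]
        norm_num
      have e5 : (Real.log ‖ι (σ η)‖ : ℂ) = (Real.log ‖ι (η * μ⁻¹ ^ 2)‖ : ℂ) := by
        rw [e4]
        push_cast
        rw [e1, e2, e3]
        ring
      exact_mod_cast e5
  intro lam hlam σ τ hσ hτ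
  obtain ⟨a, a1, a2, a3, a4⟩ := ha σ hσ
  obtain ⟨b, b1, b2, b3, b4⟩ := ha τ hτ
  have hlam0 : lam ≠ 0 := by
    rintro rfl
    rw [zero_pow two_ne_zero] at hlam
    exact hη.ne hlam.symm
  have hrt : ∀ (g : GQ) (ξ : Qbar), ξ ^ 2 = 1 → g ξ = ξ ^ 1 := by
    intro g ξ hξ
    have h0 : (ξ - 1) * (ξ + 1) = 0 := by linear_combination hξ
    rcases mul_eq_zero.1 h0 with h0 | h0
    · rw [sub_eq_zero.1 h0, map_one, one_pow]
    · rw [eq_neg_of_add_eq_zero_left h0, map_neg, map_one, pow_one]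
  refine comm_of_cocycle (W := 2) (n := 1) (m := 1) (a := a) (b := b) hlam0 a1 b1 (hrt σ) (hrt τ)
    ?_ ?_ ?_
  · rw [← map_pow, hlam, a3, pow_one, mul_pow, hlam]
  · rw [← map_pow, hlam, b3, pow_one, mul_pow, hlam]
  · rw [pow_one, pow_one]
    have p1 := b2 1 hone
    have p2 := a2 1 hone
    rw [AlgEquiv.one_apply] at p1 p2
    refine pos_eq (ι := ι) (Pos.mul p1 (a2 τ hτ)) (Pos.mul p2 (b2 σ hσ)) ?_
    have e1 : Real.log ‖ι (b * τ a)‖ = Real.log ‖ι b‖ + Real.log ‖ι (τ a)‖ := by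
      rw [map_mul, norm_mul, Real.log_mul (norm_ne b1) (norm_ne (ne_app a1))]
    have e2 : Real.log ‖ι (a * σ b)‖ = Real.log ‖ι a‖ + Real.log ‖ι (σ b)‖ := by
      rw [map_mul, norm_mul, Real.log_mul (norm_ne a1) (norm_ne (ne_app b1))]
    have f1 := b4 1 hone
    have f2 := a4 τ hτ
    have f3 := a4 1 hone
    have f4 := b4 σ hσ
    rw [AlgEquiv.one_apply, mul_one] at f1 f3
    have e5 : (Real.log ‖ι (b * τ a)‖ : ℂ) = (Real.log ‖ι (a * σ b)‖ : ℂ) := by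
      rw [e1, e2]
      push_cast
      rw [f1, f2, f3, f4, h.D_comm hσ hτ]
      ring
    exact_mod_cast e5

/-! ### (C) -/

lemma root_one {F : Sub} : AbelianRoot F 2 1 := by
  intro lam hlam σ τ _ _
  have h0 : (lam - 1) * (lam + 1) = 0 := by linear_combination hlam
  rcases mul_eq_zero.1 h0 with h0 | h0
  · rw [sub_eq_zero.1 h0]; simp
  · rw [eq_neg_of_add_eq_zero_left h0]; simp

lemma root_mul {F : Sub} {μ ν : Qbar} (h : AbelianRoot F 2 μ) (h' : AbelianRoot F 2 ν)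
    (hν : ν ≠ 0) : AbelianRoot F 2 (μ * ν) := by
  intro lam hlam σ τ hσ hτ
  obtain ⟨b, hb⟩ := IsAlgClosed.exists_pow_nat_eq ν (n := 2) (by norm_num)
  have hb0 : b ≠ 0 := by
    rintro rfl
    rw [zero_pow two_ne_zero] at hb
    exact hν hb.symm
  have h1 : (lam / b) ^ 2 = μ := by rw [div_pow, hlam, hb, mul_div_cancel_right₀ _ hν]
  have e1 := h (lam / b) h1 σ τ hσ hτ
  have e2 := h' b hb σ τ hσ hτ
  have e3 : lam = lam / b * b := by rw [div_mul_cancel₀ _ hb0]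
  rw [e3, map_mul, map_mul, map_mul, map_mul, e1, e2]

lemma root_inv {F : Sub} {μ : Qbar} (h : AbelianRoot F 2 μ) : AbelianRoot F 2 μ⁻¹ := by
  intro lam hlam σ τ hσ hτ
  have h1 : (lam⁻¹) ^ 2 = μ := by rw [inv_pow, hlam, inv_inv]
  have e1 := h lam⁻¹ h1 σ τ hσ hτ
  rw [map_inv₀, map_inv₀, map_inv₀, map_inv₀] at e1
  exact inv_injective e1

lemma root_app {F : Sub} {μ : Qbar} (h : AbelianRoot F 2 μ) {g : GQ} (hg : Fixes F g) :
    AbelianRoot F 2 (g μ) := by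
  intro lam hlam σ τ hσ hτ
  have h1 : (g⁻¹ lam) ^ 2 = μ := by
    rw [← map_pow, hlam, AlgEquiv.aut_inv, AlgEquiv.symm_apply_apply]
  have h2 := h (g⁻¹ lam) h1 (g⁻¹ * σ * g) (g⁻¹ * τ * g) ((hg.inv.mul hσ).mul hg)
    ((hg.inv.mul hτ).mul hg)
  have h3 : ∀ s : GQ, ∀ x, (g⁻¹ * s * g) x = g⁻¹ (s (g x)) := fun s x => rfl
  have h4 : ∀ x, g (g⁻¹ x) = x := fun x => by
    rw [AlgEquiv.aut_inv, AlgEquiv.apply_symm_apply]
  rw [h3, h3, h3, h3, h4, h4, h4] at h2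
  exact g⁻¹.injective h2

end Pool.Agent.U131.SX
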