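import Pool.Agent.U131.SX.Fin

/-! Auxiliary primes and Stark's conjecture at a complex split place. -/

set_option autoImplicit false
set_option linter.style.haveILetI false

namespace Pool.Agent.U131.SX.Cpx
open NumberField Module IntermediateField Pool.Agent.U131.SX
open Pool.Agent.K4H33.SK (Qbar GQ Fixes IsZeta AbelianRoot IsTorsionOrder)
open Pool.Agent.K4H33.SK.Stmt (Sub Ideals nrm Cop prd IsArtin cnt)
open Pool.Agent.U131.SR.Lay

/-- The embedding `v` of `F` is neither `ι` nor its complex conjugate: it gives another place. -/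
def OtherPlace (ι v : Qbar →+* ℂ) (F : Sub) : Prop :=
  Differ ι v F ∧ ∃ x ∈ F, val v x ≠ star (val ι x)

/-- `ε` has absolute value one at the archimedean places which are not above the place `ι`. -/
def CircleOff (ι : Qbar →+* ℂ) (F : Sub) (ε : Qbar) : Prop :=
  ∀ v : Qbar →+* ℂ, OtherPlace ι v F → ‖val v ε‖ = 1

/-- `Z σ` is the partial zeta function of `σ`, and `(Z σ)'(0) = -(1/e) log |σ ε|²` for the complex
place given by `ι`. -/
def LimitSq (ι : Qbar →+* ℂ) (F : Sub) (e : ℕ) (c : GQ → ℕ → ℕ) (Z : GQ → ℂ → ℂ) (ε : Qbar) :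
    Prop :=
  ∀ σ : GQ, Fixes F σ → IsZeta (c σ) (Z σ) ∧ Z σ 0 = 0 ∧
    deriv (Z σ) 0 = -(1 / e) * (Real.log (‖val ι (app σ ε)‖ ^ 2) : ℂ)

/-- Conditions 1 and 2 for `H/F`, the split complex place `ι` and the places given by `𝔣` and
infinity; `e` is the number of roots of unity of `H`. -/
def StarkUnit (ι : Qbar →+* ℂ) (F H : Sub) [NumberField F] (e : ℕ) (𝔣 : Ideals F)
    (art : Ideals F → GQ) : Prop :=
  ∃ (Z : GQ → ℂ → ℂ) (ε : Qbar), ε ∈ H ∧ IsUnitInt ε ∧ LimitSq ι F e (cnt F H 𝔣 art) Z ε ∧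
    CircleOff ι F ε

/-- Conditions 1, 2 and 3: moreover `H (ε ^ (1/e))` is abelian over `F`. -/
def StarkFull (ι : Qbar →+* ℂ) (F H : Sub) [NumberField F] (e : ℕ) (𝔣 : Ideals F)
    (art : Ideals F → GQ) : Prop :=
  ∃ (Z : GQ → ℂ → ℂ) (ε : Qbar), ε ∈ H ∧ IsUnitInt ε ∧ LimitSq ι F e (cnt F H 𝔣 art) Z ε ∧
    CircleOff ι F ε ∧ AbelianRoot F e ε

/-- The setting: `F` is a number field, `H/F` is a finite abelian extension, `ι` is a complex place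
of `F`, `w` is a real place of `F`, and `z` is the complex conjugation above `w`; `art` gives the
Artin symbols for the ideals prime to `𝔣`, and `e` is the number of roots of unity of `H`. -/
structure Setting (ι w : Qbar →+* ℂ) (F H : Sub) [NumberField F] (e : ℕ) (𝔣 : Ideals F)
    (art : Ideals F → GQ) (z : GQ) (Z : GQ → ℂ → ℂ) : Prop where
  le : F ≤ H
  fin : FiniteDimensional ℚ H
  galois : GaloisOver F H
  abelian : AbelianOver F H
  complex : ¬ RealOn ι F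
  real_w : RealOn w F
  conj : ∀ x, val w (app z x) = star (val w x)
  torsion : IsTorsionOrder H e
  ne_bot : 𝔣 ≠ ⊥
  artin : IsArtin F H 𝔣 art
  hecke : Hecke F (cnt F H 𝔣 art) z Z

/-- the basic unit -/
structure BasC (ι : Qbar →+* ℂ) (F H : Sub) (D : GQ → ℂ) (g : GQ) (μ : Qbar) : Prop where
  mem : μ ∈ H
  ne : μ ≠ 0
  int : IsIntegral ℤ μ
  int' : IsIntegral ℤ μ⁻¹
  log : ∀ σ : GQ, Fixes F σ → (Real.log ‖ι (σ μ)‖ : ℂ) = -2 * (D σ - D (g⁻¹ * σ))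
  circ : CircleOff ι F μ

lemma other_comp {ι v : Qbar →+* ℂ} {F : Sub} {g : GQ} (hg : Fixes F g)
    (hv : OtherPlace ι v F) : OtherPlace ι (v.comp (g : Qbar →+* Qbar)) F := by
  obtain ⟨⟨x, hx, hx2⟩, ⟨y, hy, hy2⟩⟩ := hv
  refine ⟨⟨x, hx, ?_⟩, ⟨y, hy, ?_⟩⟩
  · have h9 : (v.comp (g : Qbar →+* Qbar)) x = v x := congrArg v (hg x hx)
    show (v.comp (g : Qbar →+* Qbar)) x ≠ _
    rw [h9]
    exact hx2
  · have h9 : (v.comp (g : Qbar →+* Qbar)) y = v y := congrArg v (hg y hy)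
    show (v.comp (g : Qbar →+* Qbar)) y ≠ _
    rw [h9]
    exact hy2

theorem partC {ι : Qbar →+* ℂ} {F H : Sub} {D : GQ → ℂ} {z : GQ} (h : Set0 ι F H D z) {η : Qbar}
    (hη : BasC ι F H D z η) (hab : AbelianRoot F 2 η) {g : GQ} (hg : Fixes F g) :
    ∃ μ, BasC ι F H D g μ := by
  obtain ⟨lam, hlam⟩ := IsAlgClosed.exists_pow_nat_eq η (n := 2) (by norm_num)
  have hlam0 : lam ≠ 0 := by
    rintro rfl
    rw [zero_pow two_ne_zero] at hlam
    exact hη.ne hlam.symm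
  have hgl : g⁻¹ lam ≠ 0 := ne_app hlam0
  have hsq : (lam / g⁻¹ lam) ^ 2 = η / g⁻¹ η := by
    rw [div_pow, ← map_pow, hlam]
  have hDη : ∀ σ : GQ, Fixes F σ → (Real.log ‖ι (σ η)‖ : ℂ) = -4 * D σ := by
    intro σ hσ
    rw [hη.log σ hσ]
    have h1 : D (z⁻¹ * σ) = D (z * σ) := by
      refine h.D_congr _ _ (h.z_F.inv.mul hσ) (h.z_F.mul hσ) fun x hx => ?_
      rw [AlgEquiv.mul_apply, AlgEquiv.mul_apply, AlgEquiv.aut_inv, AlgEquiv.symm_apply_eq]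
      exact (h.zz _ (h.gal σ hσ x hx)).symm
    have h2 := h.D_z σ hσ
    rw [h1]
    linear_combination 2 * h2
  refine ⟨lam / g⁻¹ lam, ?_, div_ne_zero hlam0 hgl, ?_, ?_, ?_, ?_⟩
  · apply Pool.Agent.K4H33.SK.mem_of_fixed
    intro τ hτ
    have hτF : Fixes F τ := hτ.mono h.le
    have h1 : (τ lam / lam) ^ 2 = 1 := by
      rw [div_pow, ← map_pow, hlam, hτ η hη.mem, div_self hη.ne]
    have h2 : τ lam / lam = 1 ∨ τ lam / lam = -1 := by
      have h0 : (τ lam / lam - 1) * (τ lam / lam + 1) = 0 := by linear_combination h1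
      rcases mul_eq_zero.1 h0 with h0 | h0
      · exact Or.inl (sub_eq_zero.1 h0)
      · exact Or.inr (eq_neg_of_add_eq_zero_left h0)
    have h3 : τ (g⁻¹ lam) = g⁻¹ (τ lam) := hab lam hlam τ g⁻¹ hτF hg.inv
    rcases h2 with h2 | h2
    · have h4 : τ lam = lam := by rwa [div_eq_one_iff_eq hlam0] at h2
      rw [map_div₀, h3, h4]
    · have h4 : τ lam = -lam := by
        rw [div_eq_iff hlam0] at h2
        rw [h2]; ring
      rw [map_div₀, h3, h4, map_neg, neg_div_neg_eq]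
  · refine IsIntegral.of_pow (n := 2) (by norm_num) ?_
    rw [hsq, div_eq_mul_inv, ← map_inv₀]
    exact hη.int.mul (int_app hη.int')
  · refine IsIntegral.of_pow (n := 2) (by norm_num) ?_
    rw [inv_pow, hsq, inv_div, div_eq_mul_inv]
    exact (int_app hη.int).mul hη.int'
  · intro σ hσ
    have e1 := hDη σ hσ
    have e2 := hDη (σ * g⁻¹) (hσ.mul hg.inv)
    have e3 : 2 * Real.log ‖ι (σ (lam / g⁻¹ lam))‖ =
        Real.log ‖ι (σ η)‖ - Real.log ‖ι ((σ * g⁻¹) η)‖ := by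
      rw [← Real.log_div (norm_ne (ne_app hη.ne)) (norm_ne (ne_app hη.ne))]
      have h1 : ‖ι (σ η)‖ / ‖ι ((σ * g⁻¹) η)‖ = ‖ι (σ (lam / g⁻¹ lam))‖ ^ 2 := by
        rw [← norm_pow, ← map_pow, ← map_pow, hsq, map_div₀, map_div₀, norm_div]
        rfl
      rw [h1, Real.log_pow]
      norm_num
    have e4 : (2 : ℂ) * (Real.log ‖ι (σ (lam / g⁻¹ lam))‖ : ℂ) =
        -4 * D σ - -4 * D (σ * g⁻¹) := by
      rw [← e1, ← e2]
      exact_mod_cast e3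
    rw [← h.D_comm hσ hg.inv]
    have e5 : (Real.log ‖ι (σ (lam / g⁻¹ lam))‖ : ℂ) = (1 / 2) * (2 *
      (Real.log ‖ι (σ (lam / g⁻¹ lam))‖ : ℂ)) := by ring
    rw [e5, e4]
    ring
  · intro w hw
    have h8 := hη.circ _ (other_comp hg.inv hw)
    have h9 : val (w.comp ((g⁻¹ : GQ) : Qbar →+* Qbar)) η = w (g⁻¹ η) := rfl
    rw [h9] at h8
    have h10 : ‖w η‖ = 1 := hη.circ w hw
    have h1 : ‖w (lam / g⁻¹ lam)‖ ^ 2 = 1 := by
      rw [← norm_pow, ← map_pow, hsq, map_div₀, norm_div, h10, h8, div_one]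
    exact (pow_eq_one_iff_of_nonneg (norm_nonneg _) two_ne_zero).1 h1

lemma root_two {F : Sub} {e : ℕ} (he : e ≠ 0) (he2 : Even e) {η : Qbar}
    (h : AbelianRoot F e η) : AbelianRoot F 2 η := by
  intro lam hlam σ τ hσ hτ
  obtain ⟨k, hk⟩ := he2
  have hk0 : 0 < k := by omega
  obtain ⟨β, hβ⟩ := IsAlgClosed.exists_pow_nat_eq lam (n := k) hk0
  have h1 : β ^ e = η := by
    rw [hk, ← two_mul, mul_comm, pow_mul, hβ, hlam]
  have h2 := h β h1 σ τ hσ hτ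
  rw [← hβ, map_pow, map_pow, map_pow, map_pow, h2]

section

variable {ι w : Qbar →+* ℂ} {F H : Sub} [NumberField F] {e : ℕ} {𝔣 : Ideals F}
  {art : Ideals F → GQ} {z : GQ} {Z : GQ → ℂ → ℂ}

lemma e_pos (h : Setting ι w F H e 𝔣 art z Z) : e ≠ 0 := h.torsion.1.ne'

lemma e_even (h : Setting ι w F H e 𝔣 art z Z) : Even e := by
  have h1 : ((-1 : Qbar)) ^ e = 1 :=
    (h.torsion.2 (-1)).1 ⟨neg_mem (one_mem _), 2, by norm_num, by norm_num⟩
  by_contra h2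
  rw [Nat.not_even_iff_odd] at h2
  rw [h2.neg_one_pow] at h1
  have h3 : (2 : Qbar) = 0 := by linear_combination -h1
  exact two_ne_zero h3

lemma z_fix (h : Setting ι w F H e 𝔣 art z Z) : Fixes F z := by
  intro x hx
  apply w.injective
  have h1 : w (z x) = star (w x) := h.conj x
  rw [h1]
  exact Complex.conj_eq_iff_im.2 (h.real_w x hx)

lemma other_w (h : Setting ι w F H e 𝔣 art z Z) : OtherPlace ι w F := by
  have h1 := h.complex
  unfold RealOn at h1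
  push Not at h1
  obtain ⟨x, hx, hx2⟩ := h1
  have h3 : (val w x).im = 0 := h.real_w x hx
  refine ⟨⟨x, hx, fun h0 => ?_⟩, ⟨x, hx, fun h0 => ?_⟩⟩
  · rw [h0] at h3
    exact hx2 h3
  · rw [h0] at h3
    apply hx2
    have h4 : (star (val ι x)).im = -(val ι x).im := Complex.conj_im _
    rw [h4] at h3
    linarith

/-- the normalised derivative -/
noncomputable def DD (e : ℕ) (Z : GQ → ℂ → ℂ) (σ : GQ) : ℂ := e / 4 * deriv (Z σ) 0

lemma set0 (h : Setting ι w F H e 𝔣 art z Z) : Set0 ι F H (DD e Z) z where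
  le := h.le
  gal := h.galois
  ab := h.abelian
  D_congr := fun σ τ hσ hτ hst => by
    have h1 : deriv (Z σ) 0 = deriv (Z τ) 0 := by
      refine (Pool.Agent.K4H33.SK.isZeta_deriv (h.hecke σ hσ).1 (h.hecke τ hτ).1 fun n _ => ?_).1
      exact Pool.Agent.K4H33.SK.cnt_congr F H 𝔣 art hst n
    unfold DD
    rw [h1]
  z_F := z_fix h
  zz := fun x _ => by
    apply w.injective
    have h1 : ∀ y, w (z y) = star (w y) := h.conj
    rw [h1, h1, star_star]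
  D_z := fun σ hσ => by
    have h1 := (h.hecke σ hσ).2.2
    unfold DD
    linear_combination ((e : ℂ) / 4) * h1

lemma zprime (h : Setting ι w F H e 𝔣 art z Z) {𝔮 : Ideals F} (hq : Aux F 𝔣 𝔮) :
    ∃ Z' : GQ → ℂ → ℂ, ∀ σ : GQ, Fixes F σ → IsZeta (cnt F H (𝔣 * 𝔮) art σ) (Z' σ) ∧
      Z' σ 0 = 0 ∧ deriv (Z' σ) 0 = deriv (Z σ) 0 - deriv (Z ((art 𝔮)⁻¹ * σ)) 0 := by
  have hart := h.artin.down
  have hρ : Fixes F (art 𝔮)⁻¹ := Pool.Agent.K4H33.SK.Fixes.inv (hart.fix 𝔮 hq.2.2)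
  set ρ : GQ := (art 𝔮)⁻¹ with hρdef
  have hPn : Ideal.absNorm 𝔮 ≠ 0 := by
    rw [Ne, Ideal.absNorm_eq_zero_iff]
    exact hq.2.1
  have hPn' : (Ideal.absNorm 𝔮 : ℂ) ≠ 0 := Nat.cast_ne_zero.2 hPn
  have hd : Differentiable ℂ (fun s : ℂ => (Ideal.absNorm 𝔮 : ℂ) ^ (-s)) :=
    (differentiable_id.neg).const_cpow (Or.inl hPn')
  refine ⟨fun σ s => Z σ s - (Ideal.absNorm 𝔮 : ℂ) ^ (-s) * Z (ρ * σ) s, fun σ hσ => ?_⟩
  have g1 := h.hecke σ hσ
  have g2 := h.hecke (ρ * σ) (hρ.mul hσ)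
  refine ⟨⟨?_, ?_⟩, ?_, ?_⟩
  · exact g1.1.1.sub (hd.differentiableOn.mul g2.1.1)
  · intro s hs
    have e3 := (g1.1.2 s hs).sub (Pool.Agent.K4H33.SK.hasSum_shift hPn (g2.1.2 s hs))
    refine (LSeriesHasSum_congr s _ (fun {n} _ => ?_)).1 e3
    have e4 := Pool.Agent.K4H33.SK.cnt_prime hart le_rfl (fun _ h => h) hq.1 hq.2.1 hq.2.2 σ n
    rw [Pi.sub_apply]
    have e5 : (cnt F H 𝔣 art σ n : ℂ) = (Pool.Agent.K4H33.SK.cnt F H 𝔣 art σ n : ℂ) := rfl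
    rw [e5, e4]
    have e6 : (cnt F H (𝔣 * 𝔮) art σ n : ℂ) = (Pool.Agent.K4H33.SK.cnt F H (𝔣 * 𝔮) art σ n : ℂ) :=
      rfl
    rw [e6]
    push_cast
    split_ifs
    · have e7 : ∀ m : ℕ, (cnt F H 𝔣 art (ρ * σ) m : ℂ) =
        (Pool.Agent.K4H33.SK.cnt F H 𝔣 art (ρ * σ) m : ℂ) := fun _ => rfl
      simp only [e7]
      ring
    · ring
  · simp only
    rw [g1.2.1, g2.2.1]
    ring
  · have hn : ({1}ᶜ : Set ℂ) ∈ nhds (0 : ℂ) := isOpen_compl_singleton.mem_nhds (by simp)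
    have d1 := (g1.1.1.differentiableAt hn).hasDerivAt
    have d2 := (g2.1.1.differentiableAt hn).hasDerivAt
    have d3 := (hd 0).hasDerivAt
    have e5 := (d1.sub (d3.mul d2)).deriv
    refine Eq.trans e5 ?_
    rw [g2.2.1, mul_zero, zero_add, neg_zero, Complex.cpow_zero, one_mul]

lemma art_fix (h : Setting ι w F H e 𝔣 art z Z) {𝔮 : Ideals F} (hq : Aux F 𝔣 𝔮) :
    Fixes F (art 𝔮) := h.artin.fix 𝔮 hq.2.2

/-- from the log formula with `e` to the normalised one and back -/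
lemma log_iff (h : Setting ι w F H e 𝔣 art z Z) {x y : ℂ} {μ : Qbar} {σ : GQ} :
    (x - y = -(1 / e) * (Real.log (‖val ι (app σ μ)‖ ^ 2) : ℂ)) ↔
      (Real.log ‖ι (σ μ)‖ : ℂ) = -2 * (e / 4 * x - e / 4 * y) := by
  have h0 : (e : ℂ) ≠ 0 := Nat.cast_ne_zero.2 (e_pos h)
  have h1 : (Real.log (‖val ι (app σ μ)‖ ^ 2) : ℂ) = 2 * (Real.log ‖ι (σ μ)‖ : ℂ) := by
    rw [Real.log_pow]
    push_cast
    rfl
  rw [h1]
  constructor
  · intro h2
    have h3 : (Real.log ‖ι (σ μ)‖ : ℂ) = -(e / 2) * (x - y) := by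
      rw [h2]
      field_simp
    rw [h3]
    ring
  · intro h2
    rw [h2]
    field_simp
    ring

lemma to_basC (h : Setting ι w F H e 𝔣 art z Z) {𝔮 : Ideals F} (hq : Aux F 𝔣 𝔮)
    {Z' : GQ → ℂ → ℂ} {ε : Qbar} (h1 : ε ∈ H) (h2 : IsUnitInt ε)
    (h3 : LimitSq ι F e (cnt F H (𝔣 * 𝔮) art) Z' ε) (h4 : CircleOff ι F ε) :
    BasC ι F H (DD e Z) (art 𝔮) ε where
  mem := h1
  ne := by
    rintro rfl
    have h5 := h4 w (other_w h)
    have h6 : val w 0 = 0 := map_zero w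
    rw [h6, norm_zero] at h5
    exact zero_ne_one h5
  int := h2.1
  int' := h2.2
  log := fun σ hσ => by
    obtain ⟨Z2, hZ2⟩ := zprime h hq
    have e1 := (h3 σ hσ).2.2
    have e2 : deriv (Z' σ) 0 = deriv (Z2 σ) 0 :=
      (Pool.Agent.K4H33.SK.isZeta_deriv (h3 σ hσ).1 (hZ2 σ hσ).1 fun n _ => rfl).1
    rw [e2, (hZ2 σ hσ).2.2] at e1
    exact (log_iff h).1 e1
  circ := h4

lemma of_basC (h : Setting ι w F H e 𝔣 art z Z) {𝔮 : Ideals F} (hq : Aux F 𝔣 𝔮) {ε : Qbar}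
    (hb : BasC ι F H (DD e Z) (art 𝔮) ε) : StarkUnit ι F H e (𝔣 * 𝔮) art := by
  obtain ⟨Z2, hZ2⟩ := zprime h hq
  refine ⟨Z2, ε, hb.mem, ⟨hb.int, hb.int'⟩, fun σ hσ => ⟨(hZ2 σ hσ).1, (hZ2 σ hσ).2.1, ?_⟩, hb.circ⟩
  rw [(hZ2 σ hσ).2.2]
  exact (log_iff h).2 (hb.log σ hσ)

lemma basC_congr (h : Setting ι w F H e 𝔣 art z Z) {g k : GQ} (hg : Fixes F g) (hk : Fixes F k)
    (hgk : ∀ x ∈ H, g x = k x) {μ : Qbar} (h1 : BasC ι F H (DD e Z) g μ) :
    BasC ι F H (DD e Z) k μ where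
  mem := h1.mem
  ne := h1.ne
  int := h1.int
  int' := h1.int'
  log := fun σ hσ => by
    have h := set0 h
    rw [h1.log σ hσ]
    congr 2
    refine h.D_congr _ _ (hg.inv.mul hσ) (hk.inv.mul hσ) fun x hx => ?_
    have hy := h.gal σ hσ x hx
    rw [AlgEquiv.mul_apply, AlgEquiv.mul_apply, AlgEquiv.aut_inv, AlgEquiv.symm_apply_eq,
      hgk _ (h.gal _ hk.inv _ hy), AlgEquiv.aut_inv, AlgEquiv.apply_symm_apply]
  circ := h1.circ

theorem main (h : Setting ι w F H e 𝔣 art z Z) {𝔮 : Ideals F} (hq : Aux F 𝔣 𝔮)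
    (hz : Agree H (art 𝔮) z) (hT : StarkFull ι F H e (prd F 𝔣 𝔮) art) {𝔭 : Ideals F}
    (hp : Aux F 𝔣 𝔭) : StarkUnit ι F H e (prd F 𝔣 𝔭) art := by
  obtain ⟨Z', ε, h1, h2, h3, h4, h5⟩ := hT
  have hb := basC_congr h (art_fix h hq) (z_fix h) hz (to_basC h hq h1 h2 h3 h4)
  obtain ⟨μ, hμ⟩ := partC (set0 h) hb (root_two (e_pos h) (e_even h) h5) (art_fix h hp)
  exact of_basC h hp hμ

end

end Pool.Agent.U131.SX.Cpx
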