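import Pool.Agent.U131.SX.Fin

/-! Passing to a subfield -/

set_option autoImplicit false
set_option linter.style.haveILetI false

namespace Pool.Agent.U131.SX
open NumberField Module IntermediateField
open Pool.Agent.K4H33.SK (Qbar GQ Fixes IsZeta AbelianRoot)
open Pool.Agent.K4H33.SK.Stmt (Sub Ideals nrm Cop prd IsArtin cnt)
open Pool.Agent.U131.SR.Lay

/-- `R` is a set of representatives of the Galois group of `L/H`, for `H ≤ L`. -/
structure Rep (H L : Sub) (R : Finset GQ) : Prop where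
  fix : ∀ r ∈ R, Fixes H r
  ex : ∀ σ : GQ, Fixes H σ → ∃ r ∈ R, ∀ x ∈ L, σ x = r x
  inj : ∀ r ∈ R, ∀ r' ∈ R, (∀ x ∈ L, r x = r' x) → r = r'

lemma cnt_sub {F H L : Sub} [NumberField F] {𝔪 : Ideals F} {art : Ideals F → GQ} (hHL : H ≤ L)
    (hst : ∀ σ : GQ, Fixes F σ → ∀ x ∈ L, σ x ∈ L)
    (hfix : ∀ 𝔟 : Ideals F, Cop F 𝔟 𝔪 → Fixes F (art 𝔟)) {R : Finset GQ} (hR : Rep H L R)
    {σ : GQ} (hσ : Fixes F σ) (n : ℕ) :
    cnt F H 𝔪 art σ n = ∑ r ∈ R, cnt F L 𝔪 art (σ * r) n := by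
  classical
  have hfin : ({𝔟 : Ideals F | nrm F 𝔟 = n} : Set (Ideals F)).Finite :=
    Ideal.finite_setOfPred_absNorm_eq (S := 𝓞 F) n
  have e1 : ∀ (M : Sub) (τ : GQ), cnt F M 𝔪 art τ n =
      (hfin.toFinset.filter fun 𝔟 => Cop F 𝔟 𝔪 ∧ ∀ x ∈ M, art 𝔟 x = τ x).card := by
    intro M τ
    unfold cnt
    rw [Nat.card_congr (Equiv.subtypeEquivRight (q := fun 𝔟 =>
      𝔟 ∈ hfin.toFinset.filter fun 𝔟 => Cop F 𝔟 𝔪 ∧ ∀ x ∈ M, art 𝔟 x = τ x) fun 𝔟 => ?_)]
    · rw [Nat.card_eq_fintype_card, Fintype.card_coe]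
    · rw [Finset.mem_filter, Set.Finite.mem_toFinset]
      rfl
  rw [e1]
  simp only [e1]
  rw [← Finset.card_biUnion]
  · congr 1
    ext 𝔟
    simp only [Finset.mem_filter, Finset.mem_biUnion]
    constructor
    · rintro ⟨h1, h2, h3⟩
      have h4 : Fixes H (σ⁻¹ * art 𝔟) := Pool.Agent.K4H33.SK.agree_iff.1 h3
      obtain ⟨r, hr, hr2⟩ := hR.ex _ h4
      refine ⟨r, hr, h1, h2, fun x hx => ?_⟩
      have h5 := hr2 x hx
      rw [AlgEquiv.mul_apply, AlgEquiv.aut_inv, AlgEquiv.symm_apply_eq] at h5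
      exact h5
    · rintro ⟨r, hr, h1, h2, h3⟩
      refine ⟨h1, h2, fun x hx => ?_⟩
      rw [h3 x (hHL hx), AlgEquiv.mul_apply, hR.fix r hr x hx]
  · intro r hr r' hr' hne
    rw [Function.onFun, Finset.disjoint_left]
    intro 𝔟 h1 h2
    rw [Finset.mem_filter] at h1 h2
    apply hne
    refine hR.inj r hr r' hr' fun x hx => ?_
    have h3 := h1.2.2 x hx
    have h4 := h2.2.2 x hx
    rw [h3] at h4
    exact σ.injective h4

/-- the norm -/
noncomputable def nm (R : Finset GQ) (ε : Qbar) : Qbar := ∏ r ∈ R, r ε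

lemma nm_app {F H L : Sub} (hst : ∀ σ : GQ, Fixes F σ → ∀ x ∈ L, σ x ∈ L)
    (hFH : F ≤ H) {R : Finset GQ} (hR : Rep H L R) {ε : Qbar} (hε : ε ∈ L) {τ : GQ}
    (hτ : Fixes H τ) : τ (nm R ε) = nm R ε := by
  classical
  unfold nm
  rw [map_prod]
  have h1 : ∀ r ∈ R, ∃ r' ∈ R, ∀ x ∈ L, (τ * r) x = r' x := fun r hr =>
    hR.ex _ (hτ.mul (hR.fix r hr))
  choose! φ hφ1 hφ2 using h1
  refine Finset.prod_bij (fun r _ => φ r) (fun r hr => hφ1 r hr) ?_ ?_ ?_
  · intro r hr r' hr' he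
    refine hR.inj r hr r' hr' fun x hx => ?_
    have e1 := hφ2 r hr x hx
    have e2 := hφ2 r' hr' x hx
    rw [he, ← e2] at e1
    exact τ.injective e1
  · intro b hb
    have hinj : Set.InjOn φ (R : Set GQ) := by
      intro r hr r' hr' he
      refine hR.inj r hr r' hr' fun x hx => ?_
      have e1 := hφ2 r hr x hx
      have e2 := hφ2 r' hr' x hx
      rw [he, ← e2] at e1
      exact τ.injective e1
    have hsurj := Finset.surj_on_of_inj_on_of_card_le (s := R) (t := R) (fun r _ => φ r)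
      (fun r hr => hφ1 r hr) (fun r r' hr hr' he => hinj hr hr' he) le_rfl b hb
    obtain ⟨r, hr, he⟩ := hsurj
    exact ⟨r, hr, he.symm⟩
  · intro r hr
    exact hφ2 r hr ε hε

theorem sub_all {ι : Qbar →+* ℂ} {F H L : Sub} [NumberField F] {𝔪 : Ideals F}
    {art : Ideals F → GQ} (hFH : F ≤ H) (hHL : H ≤ L)
    (hst : ∀ σ : GQ, Fixes F σ → ∀ x ∈ L, σ x ∈ L)
    (hab : ∀ σ τ : GQ, Fixes F σ → Fixes F τ → ∀ x ∈ L, σ (τ x) = τ (σ x))
    (hfix : ∀ 𝔟 : Ideals F, Cop F 𝔟 𝔪 → Fixes F (art 𝔟)) {R : Finset GQ} (hR : Rep H L R)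
    {Z : GQ → ℂ → ℂ} {ε : Qbar} (h1 : ε ∈ L) (h0 : ε ≠ 0) (h2 : IsUnitInt ε)
    (h3 : LimitAbs ι F (cnt F L 𝔪 art) Z ε) (h4 : Circle ι F ε) :
    nm R ε ∈ H ∧ nm R ε ≠ 0 ∧ IsUnitInt (nm R ε) ∧
      LimitAbs ι F (cnt F H 𝔪 art) (fun σ s => ∑ r ∈ R, Z (σ * r) s) (nm R ε) ∧
      Circle ι F (nm R ε) ∧ (PositiveAll ι F ε → PositiveAll ι F (nm R ε)) ∧
      (AbelianRoot F 2 ε → AbelianRoot F 2 (nm R ε)) := by
  classical
  have hrF : ∀ r ∈ R, Fixes F r := fun r hr => (hR.fix r hr).mono hFH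
  have hne : ∀ r ∈ R, r ε ≠ 0 := fun r _ => ne_app h0
  refine ⟨?_, Finset.prod_ne_zero_iff.2 hne, ⟨?_, ?_⟩, ?_, ?_, ?_, ?_⟩
  · exact Pool.Agent.K4H33.SK.mem_of_fixed H fun τ hτ => nm_app hst hFH hR h1 hτ
  · exact IsIntegral.prod _ fun r _ => int_app h2.1
  · unfold nm
    rw [← Finset.prod_inv_distrib]
    refine IsIntegral.prod _ fun r _ => ?_
    rw [← map_inv₀]
    exact int_app h2.2
  · intro σ hσ
    have hσr : ∀ r ∈ R, Fixes F (σ * r) := fun r hr => hσ.mul (hrF r hr)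
    refine ⟨⟨?_, ?_⟩, ?_, ?_⟩
    · exact DifferentiableOn.fun_sum fun r hr => (h3 _ (hσr r hr)).1.1
    · intro s hs
      have e3 : ∀ r ∈ R, LSeriesHasSum (fun n => (cnt F L 𝔪 art (σ * r) n : ℂ)) s
          (Z (σ * r) s) := fun r hr => (h3 _ (hσr r hr)).1.2 s hs
      have e4 := LSeriesHasSum.sum e3
      refine (LSeriesHasSum_congr s _ (fun {n} _ => ?_)).1 e4
      rw [Finset.sum_apply, cnt_sub hHL hst hfix hR hσ n, Nat.cast_sum]
    · exact Finset.sum_eq_zero fun r hr => (h3 _ (hσr r hr)).2.1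
    · have hn : ({1}ᶜ : Set ℂ) ∈ nhds (0 : ℂ) := isOpen_compl_singleton.mem_nhds (by simp)
      have e5 : HasDerivAt (fun s => ∑ r ∈ R, Z (σ * r) s) (∑ r ∈ R, deriv (Z (σ * r)) 0) 0 :=
        HasDerivAt.fun_sum fun r hr => ((h3 _ (hσr r hr)).1.1.differentiableAt hn).hasDerivAt
      rw [e5.deriv, Finset.mul_sum]
      have e6 : Real.log ‖val ι (app σ (nm R ε))‖ =
          ∑ r ∈ R, Real.log ‖ι ((σ * r) ε)‖ := by
        have e7 : val ι (app σ (nm R ε)) = ∏ r ∈ R, ι ((σ * r) ε) := by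
          show ι (σ (nm R ε)) = _
          unfold nm
          rw [map_prod, map_prod]
          rfl
        rw [e7, norm_prod, Real.log_prod]
        intro r _
        exact norm_ne (ne_app h0)
      rw [e6]
      push_cast
      exact Finset.sum_congr rfl fun r hr => (h3 _ (hσr r hr)).2.2
  · intro v hv
    have e1 : val v (nm R ε) = ∏ r ∈ R, v (r ε) := by
      show v (nm R ε) = _
      unfold nm
      rw [map_prod]
    rw [e1, norm_prod]
    refine Finset.prod_eq_one fun r hr => ?_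
    exact h4 (v.comp (r : Qbar →+* Qbar)) (comp_differ (hrF r hr) hv)
  · intro hp σ hσ
    have e1 : ∀ S : Finset GQ, S ⊆ R → Pool.Agent.U131.SR.Pos ι (σ (∏ r ∈ S, r ε)) := by
      intro S
      induction S using Finset.induction_on with
      | empty =>
        intro _
        rw [Finset.prod_empty, map_one]
        exact Pos.one
      | insert a S ha ih =>
        intro hS
        rw [Finset.prod_insert ha, map_mul]
        refine Pos.mul ?_ (ih fun x hx => hS (Finset.mem_insert_of_mem hx))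
        exact hp (σ * a) (hσ.mul (hrF a (hS (Finset.mem_insert_self _ _))))
    exact e1 R subset_rfl
  · intro hr
    have e1 : ∀ S : Finset GQ, S ⊆ R → AbelianRoot F 2 (∏ r ∈ S, r ε) := by
      intro S
      induction S using Finset.induction_on with
      | empty =>
        intro _
        rw [Finset.prod_empty]
        exact root_one
      | insert a S ha ih =>
        intro hS
        rw [Finset.prod_insert ha]
        refine root_mul (root_app hr (hrF a (hS (Finset.mem_insert_self _ _))))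
          (ih fun x hx => hS (Finset.mem_insert_of_mem hx)) ?_
        exact Finset.prod_ne_zero_iff.2 fun x hx => hne x (hS (Finset.mem_insert_of_mem hx))
    exact e1 R subset_rfl

end Pool.Agent.U131.SX
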