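import Pool.Agent.U131.SX.Cpx
import Pool.Agent.U131.SX.Sub

/-! Complex split places: from the modulus `𝔣𝔮` down to `𝔣`. -/

set_option autoImplicit false
set_option linter.style.haveILetI false

namespace Pool.Agent.U131.SX.Cpx
open NumberField Module IntermediateField Pool.Agent.U131.SX
open Pool.Agent.K4H33.SK (Qbar GQ Fixes IsZeta AbelianRoot IsTorsionOrder)
open Pool.Agent.K4H33.SK.Stmt (Sub Ideals nrm Cop prd IsArtin cnt)
open Pool.Agent.U131.SR.Lay

/-- `L` contains `H`, `L/F` is finite abelian and unramified at the primes not dividing `𝔫`, and it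
contains `e` roots of unity. -/
structure Tower (F H L : Sub) [NumberField F] (e : ℕ) (𝔫 : Ideals F) (art : Ideals F → GQ) :
    Prop where
  le : H ≤ L
  fin : FiniteDimensional ℚ L
  galois : GaloisOver F L
  abelian : AbelianOver F L
  torsion : IsTorsionOrder L e
  artin : IsArtin F L 𝔫 art

/-- Stark's conjecture, with all three conditions, up to a factor two: a unit `η` of `H` with
`(Z σ)'(0) = -(1/(2e)) log |σ η|²`, of absolute value one at the archimedean places not above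
`ι`, such that `H (η ^ (1/e))` is abelian over `F`. -/
def StarkHalf (ι : Qbar →+* ℂ) (F H : Sub) (e : ℕ) (Z : GQ → ℂ → ℂ) : Prop :=
  ∃ η : Qbar, η ∈ H ∧ IsUnitInt η ∧
    (∀ σ : GQ, Fixes F σ →
      deriv (Z σ) 0 = -(1 / (2 * e)) * (Real.log (‖val ι (app σ η)‖ ^ 2) : ℂ)) ∧
    CircleOff ι F η ∧ AbelianRoot F e η

lemma rootW_mul {F : Sub} {W : ℕ} (hW : 0 < W) {μ ν : Qbar} (h : AbelianRoot F W μ)
    (h' : AbelianRoot F W ν) (hν : ν ≠ 0) : AbelianRoot F W (μ * ν) := by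
  intro lam hlam σ τ hσ hτ
  obtain ⟨b, hb⟩ := IsAlgClosed.exists_pow_nat_eq ν (n := W) hW
  have hb0 : b ≠ 0 := by
    rintro rfl
    rw [zero_pow hW.ne'] at hb
    exact hν hb.symm
  have h1 : (lam / b) ^ W = μ := by rw [div_pow, hlam, hb, mul_div_cancel_right₀ _ hν]
  have e1 := h (lam / b) h1 σ τ hσ hτ
  have e2 := h' b hb σ τ hσ hτ
  have e3 : lam = lam / b * b := by rw [div_mul_cancel₀ _ hb0]
  rw [e3, map_mul, map_mul, map_mul, map_mul, e1, e2]

lemma rootW_app {F : Sub} {W : ℕ} {μ : Qbar} (h : AbelianRoot F W μ) {g : GQ}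
    (hg : Fixes F g) : AbelianRoot F W (g μ) := by
  intro lam hlam σ τ hσ hτ
  have h1 : (g⁻¹ lam) ^ W = μ := by
    rw [← map_pow, hlam, AlgEquiv.aut_inv, AlgEquiv.symm_apply_apply]
  have h2 := h (g⁻¹ lam) h1 (g⁻¹ * σ * g) (g⁻¹ * τ * g) ((hg.inv.mul hσ).mul hg)
    ((hg.inv.mul hτ).mul hg)
  have h3 : ∀ s : GQ, ∀ x, (g⁻¹ * s * g) x = g⁻¹ (s (g x)) := fun s x => rfl
  have h4 : ∀ x, g (g⁻¹ x) = x := fun x => by
    rw [AlgEquiv.aut_inv, AlgEquiv.apply_symm_apply]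
  rw [h3, h3, h3, h3, h4, h4, h4] at h2
  exact g⁻¹.injective h2

/-- representatives -/
lemma exists_rep' {H L : Sub} (hfin : FiniteDimensional ℚ L) :
    ∃ R : Finset GQ, Rep H L R := by
  classical
  let φ : GQ → (L →ₐ[ℚ] Qbar) := fun σ => (σ : Qbar →ₐ[ℚ] Qbar).comp L.val
  have hφ : ∀ σ τ : GQ, φ σ = φ τ ↔ ∀ x ∈ L, σ x = τ x := by
    intro σ τ
    constructor
    · intro h x hx
      exact DFunLike.congr_fun h ⟨x, hx⟩
    · intro h
      ext x
      exact h x x.2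
  let T : Set (L →ₐ[ℚ] Qbar) := φ '' {σ | Fixes H σ}
  have hT : T.Finite := Set.toFinite _
  have hs : ∀ f ∈ T, ∃ σ : GQ, Fixes H σ ∧ φ σ = f := fun f hf => hf
  choose! s hs1 hs2 using hs
  refine ⟨hT.toFinset.image s, ⟨?_, ?_, ?_⟩⟩
  · intro r hr
    obtain ⟨f, hf, rfl⟩ := Finset.mem_image.1 hr
    exact hs1 f (hT.mem_toFinset.1 hf)
  · intro σ hσ
    have hf : φ σ ∈ T := ⟨σ, hσ, rfl⟩
    refine ⟨s (φ σ), Finset.mem_image.2 ⟨_, hT.mem_toFinset.2 hf, rfl⟩, ?_⟩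
    exact (hφ _ _).1 (hs2 _ hf).symm
  · intro r hr r' hr' he
    obtain ⟨f, hf, rfl⟩ := Finset.mem_image.1 hr
    obtain ⟨f', hf', rfl⟩ := Finset.mem_image.1 hr'
    have h1 := (hφ _ _).2 he
    rw [hs2 f (hT.mem_toFinset.1 hf), hs2 f' (hT.mem_toFinset.1 hf')] at h1
    rw [h1]

theorem sub_full {ι w : Qbar →+* ℂ} {F H L : Sub} [NumberField F] {e : ℕ} {𝔣 𝔫 : Ideals F}
    {art : Ideals F → GQ} {z : GQ} {Z : GQ → ℂ → ℂ} (h : Setting ι w F H e 𝔣 art z Z)
    (hL : Tower F H L e 𝔫 art) (hT : StarkFull ι F L e 𝔫 art) : StarkFull ι F H e 𝔫 art := by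
  classical
  obtain ⟨R, hR⟩ := exists_rep' (H := H) hL.fin
  obtain ⟨Z1, ε, h1, h2, h3, h4, h5⟩ := hT
  have h0 : ε ≠ 0 := by
    rintro rfl
    have h6 := h4 w (other_w h)
    have h7 : val w 0 = 0 := map_zero w
    rw [h7, norm_zero] at h6
    exact zero_ne_one h6
  have hrF : ∀ r ∈ R, Fixes F r := fun r hr => (hR.fix r hr).mono h.le
  have hne : ∀ r ∈ R, r ε ≠ 0 := fun r _ => ne_app h0
  have hfix : ∀ 𝔟 : Ideals F, Cop F 𝔟 𝔫 → Fixes F (art 𝔟) := hL.artin.fix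
  refine ⟨fun σ s => ∑ r ∈ R, Z1 (σ * r) s, nm R ε, ?_, ⟨?_, ?_⟩, ?_, ?_, ?_⟩
  · exact Pool.Agent.K4H33.SK.mem_of_fixed H fun τ hτ => nm_app hL.galois h.le hR h1 hτ
  · exact IsIntegral.prod _ fun r _ => int_app h2.1
  · unfold nm
    rw [← Finset.prod_inv_distrib]
    refine IsIntegral.prod _ fun r _ => ?_
    rw [← map_inv₀]
    exact int_app h2.2
  · intro σ hσ
    have hσr : ∀ r ∈ R, Fixes F (σ * r) := fun r hr => hσ.mul (hrF r hr)
    refine ⟨⟨?_, ?_⟩, ?_, ?_⟩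
    · exact DifferentiableOn.fun_sum fun r hr => (h3 _ (hσr r hr)).1.1
    · intro s hs
      have e3 : ∀ r ∈ R, LSeriesHasSum (fun n => (cnt F L 𝔫 art (σ * r) n : ℂ)) s
          (Z1 (σ * r) s) := fun r hr => (h3 _ (hσr r hr)).1.2 s hs
      have e4 := LSeriesHasSum.sum e3
      refine (LSeriesHasSum_congr s _ (fun {n} _ => ?_)).1 e4
      rw [Finset.sum_apply, cnt_sub hL.le hL.galois hfix hR hσ n, Nat.cast_sum]
    · exact Finset.sum_eq_zero fun r hr => (h3 _ (hσr r hr)).2.1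
    · have hn : ({1}ᶜ : Set ℂ) ∈ nhds (0 : ℂ) := isOpen_compl_singleton.mem_nhds (by simp)
      have e5 : HasDerivAt (fun s => ∑ r ∈ R, Z1 (σ * r) s) (∑ r ∈ R, deriv (Z1 (σ * r)) 0) 0 :=
        HasDerivAt.fun_sum fun r hr => ((h3 _ (hσr r hr)).1.1.differentiableAt hn).hasDerivAt
      rw [e5.deriv]
      have e6 : Real.log (‖val ι (app σ (nm R ε))‖ ^ 2) =
          ∑ r ∈ R, Real.log (‖ι ((σ * r) ε)‖ ^ 2) := by
        have e7 : val ι (app σ (nm R ε)) = ∏ r ∈ R, ι ((σ * r) ε) := by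
          show ι (σ (nm R ε)) = _
          unfold nm
          rw [map_prod, map_prod]
          rfl
        rw [e7, norm_prod, ← Finset.prod_pow, Real.log_prod]
        intro r _
        exact pow_ne_zero 2 (norm_ne (ne_app h0))
      rw [e6]
      push_cast
      rw [Finset.mul_sum]
      refine Finset.sum_congr rfl fun r hr => ?_
      have e8 := (h3 _ (hσr r hr)).2.2
      rw [e8]
      push_cast
      rfl
  · intro v hv
    have e1 : val v (nm R ε) = ∏ r ∈ R, v (r ε) := by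
      show v (nm R ε) = _
      unfold nm
      rw [map_prod]
    rw [e1, norm_prod]
    refine Finset.prod_eq_one fun r hr => ?_
    exact h4 (v.comp (r : Qbar →+* Qbar)) (other_comp (hrF r hr) hv)
  · have e1 : ∀ S : Finset GQ, S ⊆ R → S.Nonempty → AbelianRoot F e (∏ r ∈ S, r ε) := by
      intro S
      induction S using Finset.induction_on with
      | empty =>
        intro _ h6
        exact absurd h6 Finset.not_nonempty_empty
      | insert a S ha ih =>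
        intro hS _
        have h6 := rootW_app h5 (hrF a (hS (Finset.mem_insert_self _ _)))
        rcases S.eq_empty_or_nonempty with h7 | h7
        · rw [h7]
          simpa using h6
        · rw [Finset.prod_insert ha]
          refine rootW_mul h.torsion.1 h6
            (ih (fun x hx => hS (Finset.mem_insert_of_mem hx)) h7) ?_
          exact Finset.prod_ne_zero_iff.2 fun x hx => hne x (hS (Finset.mem_insert_of_mem hx))
    obtain ⟨r, hr, -⟩ := hR.ex 1 (Fixes.one H)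
    exact e1 R subset_rfl ⟨r, hr⟩

theorem half {ι w : Qbar →+* ℂ} {F H L : Sub} [NumberField F] {e : ℕ} {𝔣 : Ideals F}
    {art : Ideals F → GQ} {z : GQ} {Z : GQ → ℂ → ℂ} (h : Setting ι w F H e 𝔣 art z Z)
    {𝔮 : Ideals F} (hq : Aux F 𝔣 𝔮) (hz : Agree H (art 𝔮) z)
    (hL : Tower F H L e (prd F 𝔣 𝔮) art) (hT : StarkFull ι F L e (prd F 𝔣 𝔮) art) :
    StarkHalf ι F H e Z := by
  obtain ⟨Z', ε, h1, h2, h3, h4, h5⟩ := sub_full h hL hT
  have hb := basC_congr h (art_fix h hq) (z_fix h) hz (to_basC h hq h1 h2 h3 h4)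
  refine ⟨ε, h1, h2, fun σ hσ => ?_, h4, h5⟩
  have e1 := hb.log σ hσ
  have h9 := set0 h
  have h6 : DD e Z (z⁻¹ * σ) = DD e Z (z * σ) := by
    refine h9.D_congr _ _ (h9.z_F.inv.mul hσ) (h9.z_F.mul hσ) fun x hx => ?_
    rw [AlgEquiv.mul_apply, AlgEquiv.mul_apply, AlgEquiv.aut_inv, AlgEquiv.symm_apply_eq]
    exact (h9.zz _ (h9.gal σ hσ x hx)).symm
  have h7 := h9.D_z σ hσ
  have e2 : (Real.log ‖ι (σ ε)‖ : ℂ) = -4 * DD e Z σ := by
    rw [e1, h6]
    linear_combination 2 * h7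
  have h8 : (Real.log (‖val ι (app σ ε)‖ ^ 2) : ℂ) = 2 * (Real.log ‖ι (σ ε)‖ : ℂ) := by
    rw [Real.log_pow]
    push_cast
    rfl
  have h0 : (e : ℂ) ≠ 0 := Nat.cast_ne_zero.2 (e_pos h)
  rw [h8, e2]
  unfold DD
  field_simp

end Pool.Agent.U131.SX.Cpx
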