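import Pool.Agent.U131.SX.Core

/-! Auxiliary primes and Stark's conjecture at a real split place: statement layer and proof. -/

set_option autoImplicit false
set_option linter.style.haveILetI false

namespace Pool.Agent.U131.SX
open NumberField Module IntermediateField
open Pool.Agent.K4H33.SK (Qbar GQ Fixes IsZeta AbelianRoot)
open Pool.Agent.K4H33.SK.Stmt (Sub Ideals nrm Cop prd IsArtin cnt)
open Pool.Agent.U131.SR.Lay

/-- `σ ε` is positive under `ι` for all `σ` fixing `F`. -/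
def PositiveAll (ι : Qbar →+* ℂ) (F : Sub) (ε : Qbar) : Prop :=
  ∀ σ : GQ, Fixes F σ → Positive ι (app σ ε)

/-- `Z σ` is the partial zeta function of `σ`, and `log |σ ε| = -2 (Z σ)'(0)` for the real place
given by `ι`. -/
def LimitAbs (ι : Qbar →+* ℂ) (F : Sub) (c : GQ → ℕ → ℕ) (Z : GQ → ℂ → ℂ) (ε : Qbar) : Prop :=
  ∀ σ : GQ, Fixes F σ → IsZeta (c σ) (Z σ) ∧ Z σ 0 = 0 ∧
    (Real.log ‖val ι (app σ ε)‖ : ℂ) = -2 * deriv (Z σ) 0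

/-- Stark's conjecture for `H/F`, the split real place `ι` and the places given by `𝔣` and infinity:
there is a unit of `H`, of absolute value one at the other archimedean places, with the limit
formula. -/
def StarkAbs (ι : Qbar →+* ℂ) (F H : Sub) [NumberField F] (𝔣 : Ideals F) (art : Ideals F → GQ) :
    Prop :=
  ∃ (Z : GQ → ℂ → ℂ) (ε : Qbar), ε ∈ H ∧ IsUnitInt ε ∧ LimitAbs ι F (cnt F H 𝔣 art) Z ε ∧
    Circle ι F ε

/-- The same with a unit all whose conjugates over `F` are positive at `ι`. -/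
def StarkPos (ι : Qbar →+* ℂ) (F H : Sub) [NumberField F] (𝔣 : Ideals F) (art : Ideals F → GQ) :
    Prop :=
  ∃ (Z : GQ → ℂ → ℂ) (ε : Qbar), ε ∈ H ∧ IsUnitInt ε ∧ LimitAbs ι F (cnt F H 𝔣 art) Z ε ∧
    Circle ι F ε ∧ PositiveAll ι F ε

/-- The same with Tate's condition: `H (√ε)` is abelian over `F`. -/
def StarkTate (ι : Qbar →+* ℂ) (F H : Sub) [NumberField F] (𝔣 : Ideals F) (art : Ideals F → GQ) :
    Prop :=
  ∃ (Z : GQ → ℂ → ℂ) (ε : Qbar), ε ∈ H ∧ IsUnitInt ε ∧ LimitAbs ι F (cnt F H 𝔣 art) Z ε ∧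
    Circle ι F ε ∧ AbelianRoot F 2 ε

/-- The conjecture up to a factor two: there is a unit `η` of `H`, of absolute value one at the other
archimedean places, with `log |σ η| = -4 (Z σ)'(0)`, such that `H (√η)` is abelian over `F`. -/
def StarkDouble (ι : Qbar →+* ℂ) (F H : Sub) (Z : GQ → ℂ → ℂ) : Prop :=
  ∃ η : Qbar, η ∈ H ∧ IsUnitInt η ∧
    (∀ σ : GQ, Fixes F σ → (Real.log ‖val ι (app σ η)‖ : ℂ) = -4 * deriv (Z σ) 0) ∧
    Circle ι F η ∧ AbelianRoot F 2 η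

/-- The partial zeta functions `Z σ` of `H/F` for `𝔣`, their vanishing at `0`, and the double zero
of `Z σ + Z (z σ)` at `0`. -/
def Hecke (F : Sub) (c : GQ → ℕ → ℕ) (z : GQ) (Z : GQ → ℂ → ℂ) : Prop :=
  ∀ σ : GQ, Fixes F σ → IsZeta (c σ) (Z σ) ∧ Z σ 0 = 0 ∧ deriv (Z σ) 0 + deriv (Z (z * σ)) 0 = 0

/-- The setting: `F` is a number field, `H/F` is a finite abelian extension, `ι` is real on `H`,
`w` is another real place of `F`, and `z` is the complex conjugation above `w`; `art` gives the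
Artin symbols for the ideals prime to `𝔣`. -/
structure Setting (ι w : Qbar →+* ℂ) (F H : Sub) [NumberField F] (𝔣 : Ideals F)
    (art : Ideals F → GQ) (z : GQ) (Z : GQ → ℂ → ℂ) : Prop where
  le : F ≤ H
  fin : FiniteDimensional ℚ H
  galois : GaloisOver F H
  abelian : AbelianOver F H
  real : RealOn ι H
  real_w : RealOn w F
  differ : Differ ι w F
  conj : ∀ x, val w (app z x) = star (val w x)
  ne_bot : 𝔣 ≠ ⊥
  artin : IsArtin F H 𝔣 art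
  hecke : Hecke F (cnt F H 𝔣 art) z Z

/-- `𝔮` is a prime ideal not dividing `𝔣`. -/
def Aux (F : Sub) (𝔣 𝔮 : Ideals F) : Prop := 𝔮.IsPrime ∧ 𝔮 ≠ ⊥ ∧ Cop F 𝔮 𝔣

/-- The symbols of the primes in `Q` generate the Galois group of `H/F`. -/
def Generate (F H : Sub) (art : Ideals F → GQ) (Q : Set (Ideals F)) : Prop :=
  ∀ σ : GQ, Fixes F σ → ∃ k ∈ Subgroup.closure (art '' Q), Agree H k σ

section

variable {ι w : Qbar →+* ℂ} {F H : Sub} [NumberField F] {𝔣 : Ideals F} {art : Ideals F → GQ}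
  {z : GQ} {Z : GQ → ℂ → ℂ}

lemma z_fix (h : Setting ι w F H 𝔣 art z Z) : Fixes F z := by
  intro x hx
  apply w.injective
  have h1 : w (z x) = star (w x) := h.conj x
  rw [h1]
  exact Complex.conj_eq_iff_im.2 (h.real_w x hx)

lemma set0 (h : Setting ι w F H 𝔣 art z Z) :
    Set0 ι F H (fun σ => deriv (Z σ) 0) z where
  le := h.le
  gal := h.galois
  ab := h.abelian
  D_congr := fun σ τ hσ hτ hst => by
    refine (Pool.Agent.K4H33.SK.isZeta_deriv (h.hecke σ hσ).1 (h.hecke τ hτ).1 fun n _ => ?_).1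
    exact Pool.Agent.K4H33.SK.cnt_congr F H 𝔣 art hst n
  z_F := z_fix h
  zz := fun x _ => by
    apply w.injective
    have h1 : ∀ y, w (z y) = star (w y) := h.conj
    rw [h1, h1, star_star]
  D_z := fun σ hσ => (h.hecke σ hσ).2.2

lemma zprime (h : Setting ι w F H 𝔣 art z Z) {𝔮 : Ideals F} (hq : Aux F 𝔣 𝔮) :
    ∃ Z' : GQ → ℂ → ℂ, ∀ σ : GQ, Fixes F σ → IsZeta (cnt F H (𝔣 * 𝔮) art σ) (Z' σ) ∧
      Z' σ 0 = 0 ∧ deriv (Z' σ) 0 = deriv (Z σ) 0 - deriv (Z ((art 𝔮)⁻¹ * σ)) 0 := by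
  have hart := h.artin.down
  have hρ : Fixes F (art 𝔮)⁻¹ := Pool.Agent.K4H33.SK.Fixes.inv (hart.fix 𝔮 hq.2.2)
  set ρ : GQ := (art 𝔮)⁻¹ with hρdef
  have hPn : Ideal.absNorm 𝔮 ≠ 0 := by
    rw [Ne, Ideal.absNorm_eq_zero_iff]
    exact hq.2.1
  have hPn' : (Ideal.absNorm 𝔮 : ℂ) ≠ 0 := Nat.cast_ne_zero.2 hPn
  have hd : Differentiable ℂ (fun s : ℂ => (Ideal.absNorm 𝔮 : ℂ) ^ (-s)) :=
    (differentiable_id.neg).const_cpow (Or.inl hPn')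
  refine ⟨fun σ s => Z σ s - (Ideal.absNorm 𝔮 : ℂ) ^ (-s) * Z (ρ * σ) s, fun σ hσ => ?_⟩
  have g1 := h.hecke σ hσ
  have g2 := h.hecke (ρ * σ) (hρ.mul hσ)
  refine ⟨⟨?_, ?_⟩, ?_, ?_⟩
  · exact g1.1.1.sub (hd.differentiableOn.mul g2.1.1)
  · intro s hs
    have e3 := (g1.1.2 s hs).sub (Pool.Agent.K4H33.SK.hasSum_shift hPn (g2.1.2 s hs))
    refine (LSeriesHasSum_congr s _ (fun {n} _ => ?_)).1 e3
    have e4 := Pool.Agent.K4H33.SK.cnt_prime hart le_rfl (fun _ h => h) hq.1 hq.2.1 hq.2.2 σ n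
    rw [Pi.sub_apply]
    have e5 : (cnt F H 𝔣 art σ n : ℂ) = (Pool.Agent.K4H33.SK.cnt F H 𝔣 art σ n : ℂ) := rfl
    rw [e5, e4]
    have e6 : (cnt F H (𝔣 * 𝔮) art σ n : ℂ) = (Pool.Agent.K4H33.SK.cnt F H (𝔣 * 𝔮) art σ n : ℂ) :=
      rfl
    rw [e6]
    push_cast
    split_ifs
    · have e7 : ∀ m : ℕ, (cnt F H 𝔣 art (ρ * σ) m : ℂ) =
        (Pool.Agent.K4H33.SK.cnt F H 𝔣 art (ρ * σ) m : ℂ) := fun _ => rfl
      simp only [e7]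
      ring
    · ring
  · simp only
    rw [g1.2.1, g2.2.1]
    ring
  · have hn : ({1}ᶜ : Set ℂ) ∈ nhds (0 : ℂ) := isOpen_compl_singleton.mem_nhds (by simp)
    have d1 := (g1.1.1.differentiableAt hn).hasDerivAt
    have d2 := (g2.1.1.differentiableAt hn).hasDerivAt
    have d3 := (hd 0).hasDerivAt
    have e5 := (d1.sub (d3.mul d2)).deriv
    refine Eq.trans e5 ?_
    rw [g2.2.1, mul_zero, zero_add, neg_zero, Complex.cpow_zero, one_mul]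

lemma ne_zero_of_pos {x : Qbar} (h1 : IsIntegral ℤ x) (h : ∀ w : Qbar →+* ℂ, (∃ y ∈ F, w y ≠ ι y) →
    ‖w x‖ = 1) {w : Qbar →+* ℂ} (hw : Differ ι w F) : x ≠ 0 := by
  rintro rfl
  have := h w hw
  rw [map_zero, norm_zero] at this
  exact zero_ne_one this

lemma to_bas (h : Setting ι w F H 𝔣 art z Z) {𝔮 : Ideals F} (hq : Aux F 𝔣 𝔮)
    {Z' : GQ → ℂ → ℂ} {ε : Qbar} (h1 : ε ∈ H) (h2 : IsUnitInt ε)
    (h3 : LimitAbs ι F (cnt F H (𝔣 * 𝔮) art) Z' ε) (h4 : Circle ι F ε) :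
    Bas ι F H (fun σ => deriv (Z σ) 0) (art 𝔮) ε where
  mem := h1
  ne := ne_zero_of_pos h2.1 h4 h.differ
  int := h2.1
  int' := h2.2
  log := fun σ hσ => by
    obtain ⟨Z2, hZ2⟩ := zprime h hq
    have e1 := (h3 σ hσ).2.2
    have e2 : deriv (Z' σ) 0 = deriv (Z2 σ) 0 :=
      (Pool.Agent.K4H33.SK.isZeta_deriv (h3 σ hσ).1 (hZ2 σ hσ).1 fun n _ => rfl).1
    have e3 : (Real.log ‖ι (σ ε)‖ : ℂ) = -2 * deriv (Z' σ) 0 := e1
    rw [e3, e2, (hZ2 σ hσ).2.2]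
  circ := h4

lemma of_bas (h : Setting ι w F H 𝔣 art z Z) {𝔮 : Ideals F} (hq : Aux F 𝔣 𝔮) {ε : Qbar}
    (hb : Bas ι F H (fun σ => deriv (Z σ) 0) (art 𝔮) ε) :
    ∃ Z' : GQ → ℂ → ℂ, ε ∈ H ∧ IsUnitInt ε ∧ LimitAbs ι F (cnt F H (𝔣 * 𝔮) art) Z' ε ∧
      Circle ι F ε := by
  obtain ⟨Z2, hZ2⟩ := zprime h hq
  refine ⟨Z2, hb.mem, ⟨hb.int, hb.int'⟩, fun σ hσ => ⟨(hZ2 σ hσ).1, (hZ2 σ hσ).2.1, ?_⟩, hb.circ⟩
  rw [(hZ2 σ hσ).2.2]
  exact hb.log σ hσ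

lemma art_fix (h : Setting ι w F H 𝔣 art z Z) {𝔮 : Ideals F} (hq : Aux F 𝔣 𝔮) :
    Fixes F (art 𝔮) := h.artin.fix 𝔮 hq.2.2

lemma D_z' (h : Setting ι w F H 𝔣 art z Z) {σ : GQ} (hσ : Fixes F σ) :
    -2 * (deriv (Z σ) 0 - deriv (Z (z⁻¹ * σ)) 0) = -4 * deriv (Z σ) 0 := by
  have h0 := set0 h
  have h1 : deriv (Z (z⁻¹ * σ)) 0 = deriv (Z (z * σ)) 0 := by
    refine h0.D_congr _ _ (h0.z_F.inv.mul hσ) (h0.z_F.mul hσ) fun x hx => ?_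
    rw [AlgEquiv.mul_apply, AlgEquiv.mul_apply, AlgEquiv.aut_inv, AlgEquiv.symm_apply_eq]
    exact (h0.zz _ (h0.gal σ hσ x hx)).symm
  have h2 := (h.hecke σ hσ).2.2
  rw [h1]
  linear_combination 2 * h2

lemma double_iff (h : Setting ι w F H 𝔣 art z Z) : StarkDouble ι F H Z ↔
    ∃ η, Bas ι F H (fun σ => deriv (Z σ) 0) z η ∧ AbelianRoot F 2 η := by
  constructor
  · rintro ⟨η, h1, h2, h3, h4, h5⟩
    refine ⟨η, ⟨h1, ne_zero_of_pos h2.1 h4 h.differ, h2.1, h2.2, fun σ hσ => ?_, h4⟩, h5⟩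
    rw [D_z' h hσ]
    exact h3 σ hσ
  · rintro ⟨η, hη, h5⟩
    refine ⟨η, hη.mem, ⟨hη.int, hη.int'⟩, fun σ hσ => ?_, hη.circ, h5⟩
    rw [← D_z' h hσ]
    exact hη.log σ hσ

lemma pos_mul' {μ ν : Qbar} (h1 : PosAll ι F μ) (h2 : PosAll ι F ν) : PosAll ι F (μ * ν) :=
  fun σ hσ => by rw [map_mul]; exact Pos.mul (h1 σ hσ) (h2 σ hσ)

/-- one auxiliary prime whose symbol is a complex conjugation -/
theorem thm1 (h : Setting ι w F H 𝔣 art z Z) {𝔮 : Ideals F} (hq : Aux F 𝔣 𝔮)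
    (hz : Agree H (art 𝔮) z) : StarkTate ι F H (𝔣 * 𝔮) art ↔ StarkDouble ι F H Z := by
  rw [double_iff h]
  constructor
  · rintro ⟨Z', ε, h1, h2, h3, h4, h5⟩
    exact ⟨ε, bas_congr (set0 h) (art_fix h hq) (z_fix h) hz (to_bas h hq h1 h2 h3 h4), h5⟩
  · rintro ⟨η, hη, h5⟩
    have hb := bas_congr (set0 h) (z_fix h) (art_fix h hq) (fun x hx => (hz x hx).symm) hη
    obtain ⟨Z2, g1, g2, g3, g4⟩ := of_bas h hq hb
    exact ⟨Z2, η, g1, g2, g3, g4, h5⟩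

theorem thm2 (h : Setting ι w F H 𝔣 art z Z) (hS : StarkDouble ι F H Z) {𝔭 : Ideals F}
    (hp : Aux F 𝔣 𝔭) : StarkAbs ι F H (𝔣 * 𝔭) art := by
  obtain ⟨η, hη, h5⟩ := (double_iff h).1 hS
  obtain ⟨μ, hμ⟩ := partA (set0 h) hη h5 (art_fix h hp)
  obtain ⟨Z2, g1, g2, g3, g4⟩ := of_bas h hp hμ
  exact ⟨Z2, μ, g1, g2, g3, g4⟩

theorem thm3 (h : Setting ι w F H 𝔣 art z Z) {Q : Set (Ideals F)}
    (hQ : ∀ 𝔮 ∈ Q, Aux F 𝔣 𝔮 ∧ StarkPos ι F H (𝔣 * 𝔮) art) (hg : Generate F H art Q) :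
    StarkDouble ι F H Z ∧ ∀ 𝔭 : Ideals F, Aux F 𝔣 𝔭 → StarkPos ι F H (𝔣 * 𝔭) art := by
  have hall : ∀ g : GQ, Fixes F g → ∃ μ, Bas ι F H (fun σ => deriv (Z σ) 0) g μ ∧
      PosAll ι F μ := by
    intro g hgF
    refine gen (set0 h) (Q := PosAll ι F) (S := art '' Q) ?_ ?_ ?_ ?_ ?_ hgF (hg g hgF)
    · intro σ _
      rw [map_one]
      exact Pos.one
    · exact fun μ ν _ _ h1 h2 => pos_mul' h1 h2
    · intro μ _ h1 σ hσ
      rw [map_inv₀]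
      exact Pos.inv (h1 σ hσ)
    · intro μ k _ hk h1 σ hσ
      exact h1 (σ * k) (hσ.mul hk)
    · rintro _ ⟨𝔮, hq, rfl⟩
      obtain ⟨hq1, Z', ε, h1, h2, h3, h4, h5⟩ := hQ 𝔮 hq
      exact ⟨art_fix h hq1, ε, to_bas h hq1 h1 h2 h3 h4, h5⟩
  constructor
  · obtain ⟨η, hη, hpos⟩ := hall z (z_fix h)
    exact (double_iff h).2 ⟨η, hη, partB (set0 h) hall hη hpos⟩
  · intro 𝔭 hp
    obtain ⟨μ, hμ, hpos⟩ := hall (art 𝔭) (art_fix h hp)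
    obtain ⟨Z2, g1, g2, g3, g4⟩ := of_bas h hp hμ
    exact ⟨Z2, μ, g1, g2, g3, g4, hpos⟩

theorem thm4 (h : Setting ι w F H 𝔣 art z Z) {Q : Set (Ideals F)}
    (hQ : ∀ 𝔮 ∈ Q, Aux F 𝔣 𝔮 ∧ StarkTate ι F H (𝔣 * 𝔮) art) (hg : Generate F H art Q) :
    StarkDouble ι F H Z ∧ ∀ 𝔭 : Ideals F, Aux F 𝔣 𝔭 → StarkTate ι F H (𝔣 * 𝔭) art := by
  have hall : ∀ g : GQ, Fixes F g → ∃ μ, Bas ι F H (fun σ => deriv (Z σ) 0) g μ ∧
      (μ ≠ 0 ∧ AbelianRoot F 2 μ) := by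
    intro g hgF
    refine gen (set0 h) (Q := fun μ => μ ≠ 0 ∧ AbelianRoot F 2 μ) (S := art '' Q)
      ⟨one_ne_zero, root_one⟩ (fun μ ν _ _ h1 h2 => ⟨mul_ne_zero h1.1 h2.1, root_mul h1.2 h2.2 h2.1⟩)
      (fun μ _ h1 => ⟨inv_ne_zero h1.1, root_inv h1.2⟩)
      (fun μ k _ hk h1 => ⟨ne_app h1.1, root_app h1.2 hk⟩) ?_ hgF (hg _ hgF)
    rintro _ ⟨𝔮, hq, rfl⟩
    obtain ⟨hq1, Z', ε, h1, h2, h3, h4, h5⟩ := hQ 𝔮 hq
    have hb := to_bas h hq1 h1 h2 h3 h4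
    exact ⟨art_fix h hq1, ε, hb, hb.ne, h5⟩
  constructor
  · obtain ⟨η, hη, hr⟩ := hall z (z_fix h)
    exact (double_iff h).2 ⟨η, hη, hr.2⟩
  · intro 𝔭 hp
    obtain ⟨μ, hμ, hr⟩ := hall (art 𝔭) (art_fix h hp)
    obtain ⟨Z2, g1, g2, g3, g4⟩ := of_bas h hp hμ
    exact ⟨Z2, μ, g1, g2, g3, g4, hr.2⟩

end

/-- The four statements. -/
structure Conclusion (ι : Qbar →+* ℂ) (F H : Sub) [NumberField F] (𝔣 : Ideals F)
    (art : Ideals F → GQ) (z : GQ) (Z : GQ → ℂ → ℂ) : Prop where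
  /-- For one auxiliary prime with symbol `z`, Tate's form is equivalent to `StarkDouble`. -/
  one : ∀ 𝔮 : Ideals F, Aux F 𝔣 𝔮 → Agree H (art 𝔮) z →
    (StarkTate ι F H (prd F 𝔣 𝔮) art ↔ StarkDouble ι F H Z)
  /-- Then the conjecture holds for all auxiliary primes. -/
  all : StarkDouble ι F H Z → ∀ 𝔭 : Ideals F, Aux F 𝔣 𝔭 → StarkAbs ι F H (prd F 𝔣 𝔭) art
  /-- The positive form for auxiliary primes with generating symbols. -/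
  pos : ∀ Q : Set (Ideals F), (∀ 𝔮 ∈ Q, Aux F 𝔣 𝔮 ∧ StarkPos ι F H (prd F 𝔣 𝔮) art) →
    Generate F H art Q →
    StarkDouble ι F H Z ∧ ∀ 𝔭 : Ideals F, Aux F 𝔣 𝔭 → StarkPos ι F H (prd F 𝔣 𝔭) art
  /-- Tate's form for auxiliary primes with generating symbols. -/
  tate : ∀ Q : Set (Ideals F), (∀ 𝔮 ∈ Q, Aux F 𝔣 𝔮 ∧ StarkTate ι F H (prd F 𝔣 𝔮) art) →
    Generate F H art Q →
    StarkDouble ι F H Z ∧ ∀ 𝔭 : Ideals F, Aux F 𝔣 𝔭 → StarkTate ι F H (prd F 𝔣 𝔭) art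

theorem conclusion {ι w : Qbar →+* ℂ} {F H : Sub} [NumberField F] {𝔣 : Ideals F}
    {art : Ideals F → GQ} {z : GQ} {Z : GQ → ℂ → ℂ} (h : Setting ι w F H 𝔣 art z Z) :
    Conclusion ι F H 𝔣 art z Z where
  one := fun _ hq hz => thm1 h hq hz
  all := fun hS _ hp => thm2 h hS hp
  pos := fun _ hQ hg => thm3 h hQ hg
  tate := fun _ hQ hg => thm4 h hQ hg

end Pool.Agent.U131.SX
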