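import Pool.Agent.U131.SX.Twist

/-! The formulation with the differences `ζ(s, A) - ζ(s, RA)`. -/

set_option autoImplicit false
set_option linter.style.haveILetI false

namespace Pool.Agent.U131.SX
open NumberField Module IntermediateField
open Pool.Agent.K4H33.SK (Qbar GQ Fixes IsZeta AbelianRoot)
open Pool.Agent.K4H33.SK.Stmt (Sub Ideals nrm Cop prd IsArtin cnt)
open Pool.Agent.U131.SR.Lay

/-- `𝔯 = (ρ)` with `ρ ≡ -1` modulo `𝔪` and `ρ` positive at `∞₂`: an ideal in the class `R`. -/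
def InR (ι : Qbar →+* ℂ) (F : Sub) [NumberField F] (𝔪 𝔯 : Ideals F) : Prop :=
  ∃ ρ : 𝓞 F, 𝔯 = Ideal.span {ρ} ∧ PrimeTo F ρ 𝔪 ∧ ρ + 1 ∈ 𝔪 ∧
    ∀ v : Qbar →+* ℂ, Differ ι v F → 0 < (val v (emb F ρ)).re

/-- The value `exp (-Z'(0))`, where `Z(s) = ζ(s, A) - ζ(s, RA)`, with the coefficients `c` and `c'`
of the two zeta functions. -/
def ValueZ (ι : Qbar →+* ℂ) (c c' : ℕ → ℕ) (ε : Qbar) : Prop :=
  ∃ Z Z' : ℂ → ℂ, IsZeta c Z ∧ IsZeta c' Z' ∧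
    val ι ε = Complex.exp (-(deriv Z 0 - deriv Z' 0))

/-- Conditions (i), (ii) and (iii) for the classes in the ray class group of modulus `𝔫∞₂`. -/
def MonUnits (ι : Qbar →+* ℂ) (F L : Sub) [NumberField F] (𝔫 : Ideals F)
    (art : Ideals F → GQ) (𝔯 : Ideals F) (ε : Ideals F → Qbar) : Prop :=
  ∀ 𝔟 : Ideals F, Cop F 𝔟 𝔫 →
    ε 𝔟 ∈ L ∧ IsUnitInt (ε 𝔟) ∧
    ValueZ ι (classCnt ι F 𝔫 𝔟) (classCnt ι F 𝔫 (prd F 𝔯 𝔟)) (ε 𝔟) ∧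
    (∀ 𝔠 : Ideals F, Cop F 𝔠 𝔫 → app (art 𝔠) (ε 𝔟) = ε (prd F 𝔠 𝔟)) ∧
    (∀ 𝔠 : Ideals F, Cop F 𝔠 𝔫 → RayClass ι F 𝔫 𝔟 𝔠 → ε 𝔟 = ε 𝔠) ∧ Circle ι F (ε 𝔟)

/-- The group part of the conjecture for the modulus `𝔫`, whose ray class field `L` contains `H`;
`z` is the complex conjugation above `∞₂`, the Artin symbol of the class `R`. -/
def GroupPart (ι : Qbar →+* ℂ) (F H : Sub) [NumberField F] (𝔫 : Ideals F)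
    (art : Ideals F → GQ) (z : GQ) : Prop :=
  ∃ L : Sub, H ≤ L ∧ RCF ι F L 𝔫 art ∧ (∃ Z : GQ → ℂ → ℂ, Hecke F (cnt F L 𝔫 art) z Z) ∧
    ∃ 𝔯 : Ideals F, InR ι F 𝔫 𝔯 ∧ Agree L (art 𝔯) z ∧
      ∃ ε : Ideals F → Qbar, MonUnits ι F L 𝔫 art 𝔯 ε

/-- The conclusion: `exp (-Z'(0, A)) = √δ k_A` for one `δ` in `F`, positive at `∞₁`, and elements
`k_A` of `H`, positive at `∞₁`, permuted by the Artin symbols; `δ k_A²` is a unit, of absolute value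
one at all places above `∞₂`. -/
def TwistMon (ι : Qbar →+* ℂ) (F H : Sub) [NumberField F] (𝔪 : Ideals F)
    (art : Ideals F → GQ) (𝔯 : Ideals F) (δ : Qbar) (k : Ideals F → Qbar) : Prop :=
  δ ∈ F ∧ Positive ι δ ∧ ∀ 𝔟 : Ideals F, Cop F 𝔟 𝔪 →
    k 𝔟 ∈ H ∧ Positive ι (k 𝔟) ∧
    (∃ Z Z' : ℂ → ℂ, IsZeta (classCnt ι F 𝔪 𝔟) Z ∧ IsZeta (classCnt ι F 𝔪 (prd F 𝔯 𝔟)) Z' ∧
      (Real.sqrt (val ι δ).re : ℂ) * val ι (k 𝔟) = Complex.exp (-(deriv Z 0 - deriv Z' 0))) ∧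
    (∀ 𝔠 : Ideals F, Cop F 𝔠 𝔪 → app (art 𝔠) (k 𝔟) = k (prd F 𝔠 𝔟)) ∧
    (∀ 𝔠 : Ideals F, Cop F 𝔠 𝔪 → RayClass ι F 𝔪 𝔟 𝔠 → k 𝔟 = k 𝔠) ∧
    IsUnitInt (δ * k 𝔟 ^ 2) ∧ Circle ι F (δ * k 𝔟 ^ 2)

lemma classCnt_art {ι : Qbar →+* ℂ} {F L : Sub} [NumberField F] {𝔫 : Ideals F}
    {art : Ideals F → GQ} (hL : RCF ι F L 𝔫 art) {𝔟 : Ideals F} (hb : Cop F 𝔟 𝔫) {σ : GQ}
    (hσ : ∀ x ∈ L, art 𝔟 x = σ x) : classCnt ι F 𝔫 𝔟 = cnt F L 𝔫 art σ := by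
  have e3 : cnt F L 𝔫 art (art 𝔟) = classCnt ι F 𝔫 𝔟 := by
    rw [classCnt_eq]
    exact Pool.Agent.U131.SR.rayCnt_eq (field_down hL.inj) hb
  rw [← e3]
  funext n
  exact Pool.Agent.K4H33.SK.cnt_congr F L 𝔫 art hσ n

lemma cop_r {ι : Qbar →+* ℂ} {F : Sub} [NumberField F] {𝔫 𝔯 𝔟 : Ideals F} (hr : InR ι F 𝔫 𝔯)
    (hb : Cop F 𝔟 𝔫) : Cop F (prd F 𝔯 𝔟) 𝔫 := by
  obtain ⟨ρ, rfl, h2, -⟩ := hr
  exact IsCoprime.mul_left h2.2 hb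

lemma art_r {ι : Qbar →+* ℂ} {F L : Sub} [NumberField F] {𝔫 : Ideals F}
    {art : Ideals F → GQ} (hL : RCF ι F L 𝔫 art) {z : GQ} {𝔯 𝔟 : Ideals F} (hr : InR ι F 𝔫 𝔯)
    (hz : Agree L (art 𝔯) z) (hb : Cop F 𝔟 𝔫) {σ : GQ} (hσ : ∀ x ∈ L, art 𝔟 x = σ x) :
    ∀ x ∈ L, art (prd F 𝔯 𝔟) x = (z * σ) x := by
  intro x hx
  have h1 : Cop F 𝔯 𝔫 := by
    obtain ⟨ρ, rfl, h2, -⟩ := hr
    exact h2.2
  have h2 := hL.artin.mul 𝔯 𝔟 h1 hb x hx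
  rw [h2]
  have h3 : art 𝔟 x ∈ L := hL.galois _ (hL.artin.down.fix 𝔟 hb) x hx
  have h4 : art 𝔯 (art 𝔟 x) = z (art 𝔟 x) := hz _ h3
  rw [h4, hσ x hx]
  rfl

lemma group_pos {ι w : Qbar →+* ℂ} {F H : Sub} [NumberField F] {𝔪 : Ideals F}
    {art : Ideals F → GQ} {z : GQ} {Z : GQ → ℂ → ℂ} (h : RayBase ι w F H 𝔪 art z Z)
    {𝔫 : Ideals F} (hS : GroupPart ι F H 𝔫 art z) : StarkMod ι F H 𝔫 art := by
  obtain ⟨L, hHL, hL, ⟨ZL, hZL⟩, 𝔯, hr, hrz, ε, hε⟩ := hS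
  refine ⟨L, hHL, hL, ε, fun 𝔟 hb => ?_⟩
  obtain ⟨h1, h2, ⟨Z1, Z2, h3, h4, h5⟩, h6, h7, h8⟩ := hε 𝔟 hb
  refine ⟨h1, h2, ⟨Z1, h3, ?_, ?_⟩, h6, h7, h8⟩
  · have hf : Fixes F (art 𝔟) := hL.artin.down.fix 𝔟 hb
    have e1 := classCnt_art hL hb (fun _ _ => rfl)
    have e2 := hZL (art 𝔟) hf
    have e3 := (Pool.Agent.K4H33.SK.isZeta_deriv h3 (by rw [e1]; exact e2.1) fun n _ => rfl).2
    rw [e3, e2.2.1]
  · have hf : Fixes F (art 𝔟) := hL.artin.down.fix 𝔟 hb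
    have hzF : Fixes F z := z_fix h.setting
    have e1 := classCnt_art hL hb (fun _ _ => rfl)
    have e2 := hZL (art 𝔟) hf
    have e3 : deriv Z1 0 = deriv (ZL (art 𝔟)) 0 :=
      (Pool.Agent.K4H33.SK.isZeta_deriv h3 (by rw [e1]; exact e2.1) fun n _ => rfl).1
    have f1 := classCnt_art hL (cop_r hr hb) (art_r hL hr hrz hb (fun _ _ => rfl))
    have f2 := hZL (z * art 𝔟) (hzF.mul hf)
    have f3 : deriv Z2 0 = deriv (ZL (z * art 𝔟)) 0 :=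
      (Pool.Agent.K4H33.SK.isZeta_deriv h4 (by rw [f1]; exact f2.1) fun n _ => rfl).1
    rw [h5, e3, f3]
    congr 1
    linear_combination (1 : ℂ) * e2.2.2

/-- The group part of the conjecture for the moduli `𝔪𝔮`, where the classes of the primes `𝔮`
generate the ray class group modulo `𝔪∞₂`, implies the conjecture for the classes modulo `𝔪∞₂`
up to the square root of one element of `F`. -/
theorem twist_mon {ι w : Qbar →+* ℂ} {F H : Sub} [NumberField F] {𝔪 : Ideals F}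
    {art : Ideals F → GQ} {z : GQ} {Z : GQ → ℂ → ℂ} (h : RayBase ι w F H 𝔪 art z Z)
    {Q : Set (Ideals F)} (hQ : ∀ 𝔮 ∈ Q, Aux F 𝔪 𝔮 ∧ GroupPart ι F H (prd F 𝔪 𝔮) art z)
    (hg : Generate F H art Q) {𝔯 : Ideals F} (hr : InR ι F 𝔪 𝔯) (hrz : Agree H (art 𝔯) z) :
    ∃ (δ : Qbar) (k : Ideals F → Qbar), TwistMon ι F H 𝔪 art 𝔯 δ k := by
  obtain ⟨δ, k, h1, h2, h3⟩ :=
    twist_units h (fun 𝔮 hq => ⟨(hQ 𝔮 hq).1, group_pos h (hQ 𝔮 hq).2⟩) hg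
  refine ⟨δ, k, h1, h2, fun 𝔟 hb => ?_⟩
  obtain ⟨g1, g2, ⟨Z1, g3, g4, g5⟩, g6, g7, g8, g9⟩ := h3 𝔟 hb
  have hf : Fixes F (art 𝔟) := h.rcf.artin.down.fix 𝔟 hb
  have hzF : Fixes F z := z_fix h.setting
  have e1 := classCnt_art h.rcf hb (fun _ _ => rfl)
  have e2 := h.hecke (art 𝔟) hf
  have e3 : deriv Z1 0 = deriv (Z (art 𝔟)) 0 :=
    (Pool.Agent.K4H33.SK.isZeta_deriv g3 (by rw [e1]; exact e2.1) fun n _ => rfl).1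
  have f1 := classCnt_art h.rcf (cop_r hr hb) (art_r h.rcf hr hrz hb (fun _ _ => rfl))
  have f2 := h.hecke (z * art 𝔟) (hzF.mul hf)
  refine ⟨g1, g2, ⟨Z1, Z (z * art 𝔟), g3, ?_, ?_⟩, g6, g7, g8, g9⟩
  · rw [f1]
    exact f2.1
  · rw [g5]
    congr 1
    rw [e3]
    linear_combination (-1 : ℂ) * e2.2.2

end Pool.Agent.U131.SX
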