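import Pool.Agent.U131.SX.Sub

/-! Ray class fields of real quadratic fields: from the moduli `𝔪𝔮` to the modulus `𝔪`. -/

set_option autoImplicit false
set_option linter.style.haveILetI false

namespace Pool.Agent.U131.SX
open NumberField Module IntermediateField
open Pool.Agent.K4H33.SK (Qbar GQ Fixes IsZeta AbelianRoot)
open Pool.Agent.K4H33.SK.Stmt (Sub Ideals nrm Cop prd IsArtin cnt)
open Pool.Agent.U131.SR.Lay

/-- `H` is the ray class field of modulus `𝔪∞₂` of `F`, where `∞₁` is given by `ι`, and `art 𝔟` is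
(a lift of) the Artin symbol of `𝔟`: it gives an isomorphism from the ray class group of modulus
`𝔪∞₂` to the Galois group of `H/F`. -/
structure RCF (ι : Qbar →+* ℂ) (F H : Sub) [NumberField F] (𝔪 : Ideals F)
    (art : Ideals F → GQ) : Prop where
  fin : FiniteDimensional ℚ H
  le : F ≤ H
  galois : GaloisOver F H
  abelian : AbelianOver F H
  real : RealOn ι H
  artin : IsArtin F H 𝔪 art
  inj : RayClassField ι F H 𝔪 art
  surj : ∀ σ : GQ, Fixes F σ → ∃ 𝔟 : Ideals F, Cop F 𝔟 𝔪 ∧ Agree H (art 𝔟) σ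

/-- Q1 for the modulus `𝔪`, whose ray class field contains `H`. -/
def StarkMod (ι : Qbar →+* ℂ) (F H : Sub) [NumberField F] (𝔪 : Ideals F)
    (art : Ideals F → GQ) : Prop :=
  ∃ L : Sub, H ≤ L ∧ RCF ι F L 𝔪 art ∧ ∃ ε : Ideals F → Qbar, StarkRayUnits ι F L 𝔪 art ε

/-- Q1 for the modulus `𝔪`, with the condition on the square roots. -/
def StarkTateMod (ι : Qbar →+* ℂ) (F H : Sub) [NumberField F] (𝔪 : Ideals F)
    (art : Ideals F → GQ) : Prop :=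
  ∃ L : Sub, H ≤ L ∧ RCF ι F L 𝔪 art ∧ ∃ ε : Ideals F → Qbar, StarkRayUnits ι F L 𝔪 art ε ∧
    ∀ 𝔟 : Ideals F, Cop F 𝔟 𝔪 → AbelianRoot F 2 (ε 𝔟)

/-- The real quadratic field `F`, its ray class field `H` of modulus `𝔪∞₂`, the complex
conjugation `z` above the place `w` of `F` (this is `∞₂`), and the partial zeta functions `Z σ` of
the classes modulo `𝔪∞₂`. -/
structure RayBase (ι w : Qbar →+* ℂ) (F H : Sub) [NumberField F] (𝔪 : Ideals F)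
    (art : Ideals F → GQ) (z : GQ) (Z : GQ → ℂ → ℂ) : Prop where
  deg : finrank ℚ F = 2
  real_w : RealOn w F
  differ : Differ ι w F
  conj : ∀ x, val w (app z x) = star (val w x)
  ne_bot : 𝔪 ≠ ⊥
  rcf : RCF ι F H 𝔪 art
  hecke : Hecke F (cnt F H 𝔪 art) z Z

/-- The value `exp (-4 ζ'(0, 𝔟))` (and `ζ(0, 𝔟) = 0`). -/
def ValueFour (ι : Qbar →+* ℂ) (c : ℕ → ℕ) (η : Qbar) : Prop :=
  ∃ Z : ℂ → ℂ, IsZeta c Z ∧ Z 0 = 0 ∧ val ι η = Complex.exp (-4 * deriv Z 0)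

/-- Q1 up to a factor two, with the condition on the square roots: units `η 𝔟` of `H`, depending on
the class of `𝔟`, equal to `exp (-4 ζ'(0, 𝔟))` under `ι`, permuted by the Artin symbols and of
absolute value one at all places above `∞₂`, such that `H (√(η 𝔟))` is abelian over `F`. -/
def DoubleUnits (ι : Qbar →+* ℂ) (F H : Sub) [NumberField F] (𝔪 : Ideals F)
    (art : Ideals F → GQ) (η : Ideals F → Qbar) : Prop :=
  ∀ 𝔟 : Ideals F, Cop F 𝔟 𝔪 →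
    η 𝔟 ∈ H ∧ IsUnitInt (η 𝔟) ∧ ValueFour ι (classCnt ι F 𝔪 𝔟) (η 𝔟) ∧
    (∀ 𝔠 : Ideals F, Cop F 𝔠 𝔪 → app (art 𝔠) (η 𝔟) = η (prd F 𝔠 𝔟)) ∧
    (∀ 𝔠 : Ideals F, Cop F 𝔠 𝔪 → RayClass ι F 𝔪 𝔟 𝔠 → η 𝔟 = η 𝔠) ∧ Circle ι F (η 𝔟) ∧
    AbelianRoot F 2 (η 𝔟)

lemma zeta_real {a : ℕ → ℕ} {Z : ℂ → ℂ} (h : IsZeta a Z) : (deriv Z 0).im = 0 := by
  have h' : IsZeta a ((starRingEnd ℂ) ∘ Z ∘ (starRingEnd ℂ)) := by
    refine ⟨?_, ?_⟩
    · intro s hs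
      have hs' : (starRingEnd ℂ) s ≠ 1 := by
        intro h0
        apply hs
        have := congrArg (starRingEnd ℂ) h0
        simpa using this
      have hn : ({1}ᶜ : Set ℂ) ∈ nhds ((starRingEnd ℂ) s) :=
        isOpen_compl_singleton.mem_nhds hs'
      have h1 := (h.1.differentiableAt hn).conj_conj
      rw [Complex.conj_conj] at h1
      exact h1.differentiableWithinAt
    · intro s hs
      have h1 := h.2 ((starRingEnd ℂ) s) (by simpa using hs)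
      unfold LSeriesHasSum at h1 ⊢
      have h2 := Complex.hasSum_conj'.2 h1
      have h3 : ∀ n, (starRingEnd ℂ) (LSeries.term (fun n => (a n : ℂ)) ((starRingEnd ℂ) s) n) =
          LSeries.term (fun n => (a n : ℂ)) s n := by
        intro n
        rcases eq_or_ne n 0 with rfl | hn
        · simp
        · rw [LSeries.term_of_ne_zero hn, LSeries.term_of_ne_zero hn, map_div₀, Complex.conj_natCast]
          congr 1
          have hn2 : ((n : ℂ)).arg ≠ Real.pi := by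
            rw [Complex.natCast_arg]
            exact Real.pi_pos.ne
          rw [Complex.cpow_conj _ _ hn2, Complex.conj_conj, Complex.conj_natCast]
      simp only [h3] at h2
      exact h2
  have h1 := (Pool.Agent.K4H33.SK.isZeta_deriv h h' fun n _ => rfl).1
  rw [deriv_conj_conj] at h1
  simp only [Function.comp_apply, map_zero] at h1
  exact Complex.conj_eq_iff_im.1 h1.symm

lemma cop_top (F : Sub) [NumberField F] (𝔫 : Ideals F) : Cop F (⊤ : Ideals F) 𝔫 := by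
  show IsCoprime (⊤ : Ideal (𝓞 F)) 𝔫
  rw [← Ideal.one_eq_top]
  exact isCoprime_one_left

lemma art_top {ι : Qbar →+* ℂ} {F L : Sub} [NumberField F] {𝔫 : Ideals F} {art : Ideals F → GQ}
    {ε : Ideals F → Qbar} (hs : StarkRayUnits ι F L 𝔫 art ε) {𝔟 : Ideals F} (hb : Cop F 𝔟 𝔫) :
    art 𝔟 (ε ⊤) = ε 𝔟 := by
  have hc : Cop F (⊤ : Ideals F) 𝔫 := cop_top F 𝔫
  have h1 := (hs ⊤ hc).2.2.2.1 𝔟 hb
  have h2 : prd F 𝔟 (⊤ : Ideals F) = 𝔟 := Ideal.mul_top 𝔟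
  rw [h2] at h1
  exact h1

lemma exp_pos {x : ℂ} {d : ℂ} (hd : d.im = 0) (c : ℝ) (h : x = Complex.exp ((c : ℂ) * d)) :
    x.im = 0 ∧ 0 < x.re ∧ (Real.log ‖x‖ : ℂ) = (c : ℂ) * d := by
  have e1 : d = (d.re : ℂ) := Complex.ext (by simp) (by simp [hd])
  have e2 : x = ((Real.exp (c * d.re) : ℝ) : ℂ) := by
    rw [h, e1]
    push_cast
    simp
  refine ⟨?_, ?_, ?_⟩
  · rw [e2]; exact Complex.ofReal_im _
  · rw [e2, Complex.ofReal_re]; exact Real.exp_pos _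
  · rw [e2, Complex.norm_real, Real.norm_of_nonneg (Real.exp_pos _).le, Real.log_exp, e1]
    push_cast
    simp

lemma ray_pos {ι : Qbar →+* ℂ} {F L : Sub} [NumberField F] {𝔫 : Ideals F} {art : Ideals F → GQ}
    (hL : RCF ι F L 𝔫 art) {ε : Ideals F → Qbar} (hs : StarkRayUnits ι F L 𝔫 art ε) :
    ∃ Z : GQ → ℂ → ℂ, ε ⊤ ∈ L ∧ IsUnitInt (ε ⊤) ∧ LimitAbs ι F (cnt F L 𝔫 art) Z (ε ⊤) ∧
      Circle ι F (ε ⊤) ∧ PositiveAll ι F (ε ⊤) := by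
  have hc : Cop F (⊤ : Ideals F) 𝔫 := cop_top F 𝔫
  obtain ⟨g1, g2, -, -, -, g6⟩ := hs ⊤ hc
  have key : ∀ σ : GQ, Fixes F σ → ∃ Zs : ℂ → ℂ, IsZeta (cnt F L 𝔫 art σ) Zs ∧ Zs 0 = 0 ∧
      (Real.log ‖val ι (app σ (ε ⊤))‖ : ℂ) = -2 * deriv Zs 0 ∧ Positive ι (app σ (ε ⊤)) := by
    intro σ hσ
    obtain ⟨𝔟, hb, hbσ⟩ := hL.surj σ hσ
    have e1 : app σ (ε ⊤) = ε 𝔟 := by
      rw [← hbσ _ g1]
      exact art_top hs hb
    obtain ⟨-, -, ⟨Zs, h1, h2, h3⟩, -⟩ := hs 𝔟 hb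
    have e2 : classCnt ι F 𝔫 𝔟 = cnt F L 𝔫 art σ := by
      have e3 : cnt F L 𝔫 art (art 𝔟) = classCnt ι F 𝔫 𝔟 := by
        rw [classCnt_eq]
        exact Pool.Agent.U131.SR.rayCnt_eq (field_down hL.inj) hb
      rw [← e3]
      funext n
      exact Pool.Agent.K4H33.SK.cnt_congr F L 𝔫 art hbσ n
    rw [e2] at h1
    have hr := zeta_real h1
    have h4 : val ι (ε 𝔟) = Complex.exp (((-2 : ℝ) : ℂ) * deriv Zs 0) := by
      rw [h3]; push_cast; rfl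
    obtain ⟨p1, p2, p3⟩ := exp_pos hr (-2) h4
    refine ⟨Zs, h1, h2, ?_, ?_⟩
    · rw [e1, p3]; push_cast; rfl
    · rw [e1]; exact ⟨p1, p2⟩
  choose! Z hZ using key
  exact ⟨Z, g1, g2, fun σ hσ => ⟨(hZ σ hσ).1, (hZ σ hσ).2.1, (hZ σ hσ).2.2.1⟩, g6,
    fun σ hσ => (hZ σ hσ).2.2.2⟩

/-- representatives -/
lemma exists_rep {F H L : Sub} (hfin : FiniteDimensional ℚ L) (_ : F ≤ H) :
    ∃ R : Finset GQ, Rep H L R := by
  classical
  let φ : GQ → (L →ₐ[ℚ] Qbar) := fun σ => (σ : Qbar →ₐ[ℚ] Qbar).comp L.val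
  have hφ : ∀ σ τ : GQ, φ σ = φ τ ↔ ∀ x ∈ L, σ x = τ x := by
    intro σ τ
    constructor
    · intro h x hx
      exact DFunLike.congr_fun h ⟨x, hx⟩
    · intro h
      ext x
      exact h x x.2
  let T : Set (L →ₐ[ℚ] Qbar) := φ '' {σ | Fixes H σ}
  have hT : T.Finite := Set.toFinite _
  have hs : ∀ f ∈ T, ∃ σ : GQ, Fixes H σ ∧ φ σ = f := fun f hf => hf
  choose! s hs1 hs2 using hs
  refine ⟨hT.toFinset.image s, ⟨?_, ?_, ?_⟩⟩
  · intro r hr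
    obtain ⟨f, hf, rfl⟩ := Finset.mem_image.1 hr
    exact hs1 f (hT.mem_toFinset.1 hf)
  · intro σ hσ
    have hf : φ σ ∈ T := ⟨σ, hσ, rfl⟩
    refine ⟨s (φ σ), Finset.mem_image.2 ⟨_, hT.mem_toFinset.2 hf, rfl⟩, ?_⟩
    exact (hφ _ _).1 (hs2 _ hf).symm
  · intro r hr r' hr' he
    obtain ⟨f, hf, rfl⟩ := Finset.mem_image.1 hr
    obtain ⟨f', hf', rfl⟩ := Finset.mem_image.1 hr'
    have h1 := (hφ _ _).2 he
    rw [hs2 f (hT.mem_toFinset.1 hf), hs2 f' (hT.mem_toFinset.1 hf')] at h1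
    rw [h1]

lemma RayBase.setting {ι w : Qbar →+* ℂ} {F H : Sub} [NumberField F] {𝔪 : Ideals F}
    {art : Ideals F → GQ} {z : GQ} {Z : GQ → ℂ → ℂ} (h : RayBase ι w F H 𝔪 art z Z) :
    Setting ι w F H 𝔪 art z Z where
  le := h.rcf.le
  fin := h.rcf.fin
  galois := h.rcf.galois
  abelian := h.rcf.abelian
  real := h.rcf.real
  real_w := h.real_w
  differ := h.differ
  conj := h.conj
  ne_bot := h.ne_bot
  artin := h.rcf.artin
  hecke := h.hecke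

lemma mod_pos {ι w : Qbar →+* ℂ} {F H : Sub} [NumberField F] {𝔪 : Ideals F}
    {art : Ideals F → GQ} {z : GQ} {Z : GQ → ℂ → ℂ} (h : RayBase ι w F H 𝔪 art z Z)
    {𝔫 : Ideals F} (hS : StarkMod ι F H 𝔫 art) : StarkPos ι F H 𝔫 art := by
  obtain ⟨L, hHL, hL, ε, hε⟩ := hS
  obtain ⟨Z1, g1, g2, g3, g4, g5⟩ := ray_pos hL hε
  obtain ⟨R, hR⟩ := exists_rep (F := F) hL.fin h.rcf.le
  have h0 : ε ⊤ ≠ 0 := ne_zero_of_pos g2.1 g4 h.differ
  obtain ⟨k1, k2, k3, k4, k5, k6, k7⟩ :=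
    sub_all h.rcf.le hHL hL.galois hL.abelian hL.artin.down.fix hR g1 h0 g2 g3 g4
  exact ⟨_, _, k1, k3, k4, k5, k6 g5⟩

lemma mod_tate {ι w : Qbar →+* ℂ} {F H : Sub} [NumberField F] {𝔪 : Ideals F}
    {art : Ideals F → GQ} {z : GQ} {Z : GQ → ℂ → ℂ} (h : RayBase ι w F H 𝔪 art z Z)
    {𝔫 : Ideals F} (hS : StarkTateMod ι F H 𝔫 art) : StarkTate ι F H 𝔫 art := by
  obtain ⟨L, hHL, hL, ε, hε, hr⟩ := hS
  obtain ⟨Z1, g1, g2, g3, g4, g5⟩ := ray_pos hL hε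
  obtain ⟨R, hR⟩ := exists_rep (F := F) hL.fin h.rcf.le
  have h0 : ε ⊤ ≠ 0 := ne_zero_of_pos g2.1 g4 h.differ
  obtain ⟨k1, k2, k3, k4, k5, k6, k7⟩ :=
    sub_all h.rcf.le hHL hL.galois hL.abelian hL.artin.down.fix hR g1 h0 g2 g3 g4
  exact ⟨_, _, k1, k3, k4, k5, k7 (hr ⊤ (cop_top F 𝔫))⟩

/-- Q1 for the moduli `𝔪𝔮`, where the classes of the primes `𝔮` generate the ray class group
modulo `𝔪∞₂`, implies Q1 for `𝔪` up to a factor two. -/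
theorem double_units {ι w : Qbar →+* ℂ} {F H : Sub} [NumberField F] {𝔪 : Ideals F}
    {art : Ideals F → GQ} {z : GQ} {Z : GQ → ℂ → ℂ} (h : RayBase ι w F H 𝔪 art z Z)
    {Q : Set (Ideals F)} (hQ : ∀ 𝔮 ∈ Q, Aux F 𝔪 𝔮 ∧ StarkMod ι F H (prd F 𝔪 𝔮) art)
    (hg : Generate F H art Q) : ∃ η : Ideals F → Qbar, DoubleUnits ι F H 𝔪 art η := by
  have hset := h.setting
  have hall : ∀ g : GQ, Fixes F g → ∃ μ, Bas ι F H (fun σ => deriv (Z σ) 0) g μ ∧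
      PosAll ι F μ := by
    intro g hgF
    refine gen (set0 hset) (Q := PosAll ι F) (S := art '' Q) ?_ ?_ ?_ ?_ ?_ hgF (hg g hgF)
    · intro σ _
      rw [map_one]
      exact Pos.one
    · exact fun μ ν _ _ h1 h2 => pos_mul' h1 h2
    · intro μ _ h1 σ hσ
      rw [map_inv₀]
      exact Pos.inv (h1 σ hσ)
    · intro μ k _ hk h1 σ hσ
      exact h1 (σ * k) (hσ.mul hk)
    · rintro _ ⟨𝔮, hq, rfl⟩
      obtain ⟨hq1, hq2⟩ := hQ 𝔮 hq
      obtain ⟨Z', ε, h1, h2, h3, h4, h5⟩ := mod_pos h hq2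
      exact ⟨art_fix hset hq1, ε, to_bas hset hq1 h1 h2 h3 h4, h5⟩
  obtain ⟨η, hη, hpos⟩ := hall z (z_fix hset)
  have hroot := partB (set0 hset) hall hη hpos
  refine ⟨fun 𝔟 => art 𝔟 η, fun 𝔟 hb => ?_⟩
  have hf : Fixes F (art 𝔟) := h.rcf.artin.down.fix 𝔟 hb
  have hz := h.hecke (art 𝔟) hf
  refine ⟨h.rcf.galois _ hf η hη.mem, ⟨int_app hη.int, ?_⟩, ⟨Z (art 𝔟), ?_, hz.2.1, ?_⟩, ?_, ?_,
    ?_, root_app hroot hf⟩
  · show IsIntegral ℤ (art 𝔟 η)⁻¹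
    rw [← map_inv₀]
    exact int_app hη.int'
  · have e3 : cnt F H 𝔪 art (art 𝔟) = classCnt ι F 𝔪 𝔟 := by
      rw [classCnt_eq]
      exact Pool.Agent.U131.SR.rayCnt_eq (field_down h.rcf.inj) hb
    rw [← e3]
    exact hz.1
  · have e1 := hη.log (art 𝔟) hf
    have e2 := D_z' hset hf
    rw [e2] at e1
    have e4 : (Real.log ‖ι (art 𝔟 η)‖ : ℂ) = -2 * (2 * deriv (Z (art 𝔟)) 0) := by
      rw [e1]; ring
    have e5 := Pool.Agent.U131.SR.pos_exp (hpos (art 𝔟) hf) e4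
    show ι (art 𝔟 η) = _
    rw [e5]
    congr 1
    ring
  · intro 𝔠 hc
    exact (h.rcf.artin.mul 𝔠 𝔟 hc hb η hη.mem).symm
  · intro 𝔠 hc hr
    exact (h.rcf.inj 𝔟 𝔠 hb hc).2 hr η hη.mem
  · intro v hv
    exact hη.circ (v.comp (art 𝔟 : Qbar →+* Qbar)) (comp_differ hf hv)

/-- Q1 for the moduli `𝔪𝔮`, where the classes of the primes `𝔮` generate the ray class group
modulo `𝔪∞₂`, implies Tate's refined conjecture for `H/F` and the sets `S ∪ {𝔭}`. -/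
theorem tate_all {ι w : Qbar →+* ℂ} {F H : Sub} [NumberField F] {𝔪 : Ideals F}
    {art : Ideals F → GQ} {z : GQ} {Z : GQ → ℂ → ℂ} (h : RayBase ι w F H 𝔪 art z Z)
    {Q : Set (Ideals F)} (hQ : ∀ 𝔮 ∈ Q, Aux F 𝔪 𝔮 ∧ StarkTateMod ι F H (prd F 𝔪 𝔮) art)
    (hg : Generate F H art Q) {𝔭 : Ideals F} (hp : Aux F 𝔪 𝔭) :
    StarkTate ι F H (prd F 𝔪 𝔭) art :=
  (thm4 h.setting (fun 𝔮 hq => ⟨(hQ 𝔮 hq).1, mod_tate h (hQ 𝔮 hq).2⟩) hg).2 𝔭 hp

end Pool.Agent.U131.SX
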