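import Pool.Agent.U131.SX.Twist

/-! The strong form of the root condition. -/

set_option autoImplicit false
set_option linter.style.haveILetI false

namespace Pool.Agent.U131.SX
open NumberField Module IntermediateField
open Pool.Agent.K4H33.SK (Qbar GQ Fixes IsZeta AbelianRoot)
open Pool.Agent.K4H33.SK.Stmt (Sub Ideals nrm Cop prd IsArtin cnt)
open Pool.Agent.U131.SR.Lay

/-- The conjecture, with positive conjugates and a strong form of the condition on the root: the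
unit is `δ k²` with `δ` in `F` and `k` in `H`, and `H (√ε)` is abelian over `F`. -/
def StarkSquare (ι : Qbar →+* ℂ) (F H : Sub) [NumberField F] (𝔣 : Ideals F)
    (art : Ideals F → GQ) : Prop :=
  ∃ (Z : GQ → ℂ → ℂ) (ε δ k : Qbar), ε ∈ H ∧ IsUnitInt ε ∧
    LimitAbs ι F (cnt F H 𝔣 art) Z ε ∧ Circle ι F ε ∧ PositiveAll ι F ε ∧ AbelianRoot F 2 ε ∧
    δ ∈ F ∧ k ∈ H ∧ ε = δ * k ^ 2

theorem strong {ι w : Qbar →+* ℂ} {F H : Sub} [NumberField F] {𝔣 : Ideals F}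
    {art : Ideals F → GQ} {z : GQ} {Z : GQ → ℂ → ℂ} (h : Setting ι w F H 𝔣 art z Z)
    {Q : Set (Ideals F)} (hQ : ∀ 𝔮 ∈ Q, Aux F 𝔣 𝔮 ∧ StarkPos ι F H (prd F 𝔣 𝔮) art)
    (hg : Generate F H art Q) {𝔭 : Ideals F} (hp : Aux F 𝔣 𝔭) (hz : Agree H (art 𝔭) z) :
    StarkSquare ι F H (prd F 𝔣 𝔭) art := by
  have hall : ∀ g : GQ, Fixes F g → ∃ μ, Bas ι F H (fun σ => deriv (Z σ) 0) g μ ∧
      PosAll ι F μ := by
    intro g hgF
    refine gen (set0 h) (Q := PosAll ι F) (S := art '' Q) ?_ ?_ ?_ ?_ ?_ hgF (hg g hgF)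
    · intro σ _
      rw [map_one]
      exact Pos.one
    · exact fun μ ν _ _ h1 h2 => pos_mul' h1 h2
    · intro μ _ h1 σ hσ
      rw [map_inv₀]
      exact Pos.inv (h1 σ hσ)
    · intro μ k _ hk h1 σ hσ
      exact h1 (σ * k) (hσ.mul hk)
    · rintro _ ⟨𝔮, hq, rfl⟩
      obtain ⟨hq1, Z', ε, h1, h2, h3, h4, h5⟩ := hQ 𝔮 hq
      exact ⟨art_fix h hq1, ε, to_bas h hq1 h1 h2 h3 h4, h5⟩
  obtain ⟨η, hη, hpos⟩ := hall z (z_fix h)
  have hroot := partB (set0 h) hall hη hpos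
  obtain ⟨b, hbH, hb0, hbp, hbF⟩ := twist (set0 h) h.fin hall hη hpos
  have hb := bas_congr (set0 h) (z_fix h) (art_fix h hp) (fun x hx => (hz x hx).symm) hη
  obtain ⟨Z2, g1, g2, g3, g4⟩ := of_bas h hp hb
  refine ⟨Z2, η, η * b ^ 2, b⁻¹, g1, g2, g3, g4, hpos, hroot, hbF, inv_mem hbH, ?_⟩
  rw [inv_pow, mul_assoc, mul_inv_cancel₀ (pow_ne_zero 2 hb0), mul_one]

end Pool.Agent.U131.SX
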