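import Pool.Agent.U131.SX.RayX
import Pool.Agent.U131.SX.CpxSub

/-! Ray class fields of real quadratic fields: the units for `𝔪` up to one square root of `F`. -/

set_option autoImplicit false
set_option linter.style.haveILetI false

namespace Pool.Agent.U131.SX
open NumberField Module IntermediateField
open Pool.Agent.K4H33.SK (Qbar GQ Fixes IsZeta AbelianRoot)
open Pool.Agent.K4H33.SK.Stmt (Sub Ideals nrm Cop prd IsArtin cnt)
open Pool.Agent.U131.SR.Lay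

/-- `exp (-2 ζ'(0, 𝔟)) = √δ h` under `ι` (and `ζ(0, 𝔟) = 0`). -/
def ValueTwist (ι : Qbar →+* ℂ) (δ : Qbar) (c : ℕ → ℕ) (h : Qbar) : Prop :=
  ∃ Z : ℂ → ℂ, IsZeta c Z ∧ Z 0 = 0 ∧
    (Real.sqrt (val ι δ).re : ℂ) * val ι h = Complex.exp (-2 * deriv Z 0)

/-- The conclusion: `exp (-2 ζ'(0, 𝔟)) = √δ h 𝔟` for one `δ` in `F`, positive at `∞₁`, and
elements `h 𝔟` of `H`, positive at `∞₁`, depending on the class of `𝔟`, permuted by the Artin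
symbols; `δ (h 𝔟)²` is a unit, of absolute value one at all places above `∞₂`. -/
def TwistUnits (ι : Qbar →+* ℂ) (F H : Sub) [NumberField F] (𝔪 : Ideals F)
    (art : Ideals F → GQ) (δ : Qbar) (h : Ideals F → Qbar) : Prop :=
  δ ∈ F ∧ Positive ι δ ∧ ∀ 𝔟 : Ideals F, Cop F 𝔟 𝔪 →
    h 𝔟 ∈ H ∧ Positive ι (h 𝔟) ∧ ValueTwist ι δ (classCnt ι F 𝔪 𝔟) (h 𝔟) ∧
    (∀ 𝔠 : Ideals F, Cop F 𝔠 𝔪 → app (art 𝔠) (h 𝔟) = h (prd F 𝔠 𝔟)) ∧
    (∀ 𝔠 : Ideals F, Cop F 𝔠 𝔪 → RayClass ι F 𝔪 𝔟 𝔠 → h 𝔟 = h 𝔠) ∧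
    IsUnitInt (δ * h 𝔟 ^ 2) ∧ Circle ι F (δ * h 𝔟 ^ 2)

lemma Pos.add' {ι : Qbar →+* ℂ} {x y : Qbar} (hx : Pool.Agent.U131.SR.Pos ι x)
    (hy : Pool.Agent.U131.SR.Pos ι y) : Pool.Agent.U131.SR.Pos ι (x + y) := by
  obtain ⟨h1, h2⟩ := hx
  obtain ⟨h3, h4⟩ := hy
  unfold Pool.Agent.U131.SR.Pos
  rw [map_add, Complex.add_im, Complex.add_re, h1, h3]
  exact ⟨by norm_num, by positivity⟩

lemma pos_sum {ι : Qbar →+* ℂ} {T : Finset GQ} (hT : T.Nonempty) {a : GQ → Qbar}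
    (h : ∀ t ∈ T, Pool.Agent.U131.SR.Pos ι (a t)) :
    Pool.Agent.U131.SR.Pos ι (∑ t ∈ T, a t) := by
  classical
  induction T using Finset.induction_on with
  | empty => exact absurd hT Finset.not_nonempty_empty
  | insert s T hs ih =>
    rcases T.eq_empty_or_nonempty with h7 | h7
    · rw [h7]
      simpa using h s (Finset.mem_insert_self _ _)
    · rw [Finset.sum_insert hs]
      exact Pos.add' (h s (Finset.mem_insert_self _ _))
        (ih h7 fun t ht => h t (Finset.mem_insert_of_mem ht))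

/-- the twist -/
theorem twist {ι : Qbar →+* ℂ} {F H : Sub} {D : GQ → ℂ} {z : GQ} (h : Set0 ι F H D z)
    (hfin : FiniteDimensional ℚ H)
    (hall : ∀ g : GQ, Fixes F g → ∃ μ, Bas ι F H D g μ ∧ PosAll ι F μ) {η : Qbar}
    (hη : Bas ι F H D z η) (hpos : PosAll ι F η) :
    ∃ b : Qbar, b ∈ H ∧ b ≠ 0 ∧ PosAll ι F b ∧ η * b ^ 2 ∈ F := by
  classical
  have hDη : ∀ σ : GQ, Fixes F σ → (Real.log ‖ι (σ η)‖ : ℂ) = -4 * D σ := by
    intro σ hσ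
    rw [hη.log σ hσ]
    have h1 : D (z⁻¹ * σ) = D (z * σ) := by
      refine h.D_congr _ _ (h.z_F.inv.mul hσ) (h.z_F.mul hσ) fun x hx => ?_
      rw [AlgEquiv.mul_apply, AlgEquiv.mul_apply, AlgEquiv.aut_inv, AlgEquiv.symm_apply_eq]
      exact (h.zz _ (h.gal σ hσ x hx)).symm
    have h2 := h.D_z σ hσ
    rw [h1]
    linear_combination 2 * h2
  have hone : Fixes F (1 : GQ) := Fixes.one F
  have ha : ∀ σ : GQ, Fixes F σ → ∃ a : Qbar, a ∈ H ∧ a ≠ 0 ∧ PosAll ι F a ∧ σ η = η * a ^ 2 ∧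
      ∀ τ : GQ, Fixes F τ → (Real.log ‖ι (τ a)‖ : ℂ) = -2 * (D (σ * τ) - D τ) := by
    intro σ hσ
    obtain ⟨μ, h1, h2⟩ := hall σ⁻¹ hσ.inv
    have hlog : ∀ τ : GQ, Fixes F τ → (Real.log ‖ι (τ μ⁻¹)‖ : ℂ) = -2 * (D (σ * τ) - D τ) := by
      intro τ hτ
      have e1 := h1.log τ hτ
      rw [inv_inv] at e1
      rw [map_inv₀, map_inv₀, norm_inv, Real.log_inv]
      push_cast
      rw [e1]
      ring
    have hposa : PosAll ι F μ⁻¹ := fun τ hτ => by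
      rw [map_inv₀]
      exact Pos.inv (h2 τ hτ)
    refine ⟨μ⁻¹, inv_mem h1.mem, inv_ne_zero h1.ne, hposa, ?_, hlog⟩
    refine pos_eq (ι := ι) (hpos σ hσ) ?_ ?_
    · have h3 := hpos 1 hone
      have h4 := hposa 1 hone
      rw [AlgEquiv.one_apply] at h3 h4
      rw [pow_two]
      exact Pos.mul h3 (Pos.mul h4 h4)
    · have e1 := hDη σ hσ
      have e2 := hDη 1 hone
      have e3 := hlog 1 hone
      rw [AlgEquiv.one_apply] at e2 e3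
      rw [mul_one] at e3
      have e4 : Real.log ‖ι (η * μ⁻¹ ^ 2)‖ = Real.log ‖ι η‖ + 2 * Real.log ‖ι μ⁻¹‖ := by
        rw [map_mul, norm_mul, Real.log_mul (norm_ne hη.ne)
          (norm_ne (pow_ne_zero 2 (inv_ne_zero h1.ne))), map_pow, norm_pow, Real.log_pow]
        norm_num
      have e5 : (Real.log ‖ι (σ η)‖ : ℂ) = (Real.log ‖ι (η * μ⁻¹ ^ 2)‖ : ℂ) := by
        rw [e4]
        push_cast
        rw [e1, e2, e3]
        ring
      exact_mod_cast e5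
  choose! a a0 a1 a2 a3 a4 using ha
  have hap : ∀ σ : GQ, Fixes F σ → Pool.Agent.U131.SR.Pos ι (a σ) := fun σ hσ => by
    have h5 := a2 σ hσ 1 hone
    rwa [AlgEquiv.one_apply] at h5
  have hcoc : ∀ σ τ : GQ, Fixes F σ → Fixes F τ → a (σ * τ) = a σ * σ (a τ) := by
    intro σ τ hσ hτ
    refine pos_eq (ι := ι) (hap _ (hσ.mul hτ)) (Pos.mul (hap σ hσ) (a2 τ hτ σ hσ)) ?_
    have e1 : Real.log ‖ι (a σ * σ (a τ))‖ = Real.log ‖ι (a σ)‖ + Real.log ‖ι (σ (a τ))‖ := by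
      rw [map_mul, norm_mul, Real.log_mul (norm_ne (a1 σ hσ)) (norm_ne (ne_app (a1 τ hτ)))]
    have f1 := a4 (σ * τ) (hσ.mul hτ) 1 hone
    have f2 := a4 σ hσ 1 hone
    have f3 := a4 τ hτ σ hσ
    rw [AlgEquiv.one_apply, mul_one] at f1 f2
    have e5 : (Real.log ‖ι (a (σ * τ))‖ : ℂ) = (Real.log ‖ι (a σ * σ (a τ))‖ : ℂ) := by
      rw [e1]
      push_cast
      rw [f1, f2, f3, h.D_comm hσ hτ]
      ring
    exact_mod_cast e5
  have hcongr : ∀ σ τ : GQ, Fixes F σ → Fixes F τ → (∀ x ∈ H, σ x = τ x) → a σ = a τ := by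
    intro σ τ hσ hτ hst
    refine pos_eq (ι := ι) (hap σ hσ) (hap τ hτ) ?_
    have f1 := a4 σ hσ 1 hone
    have f2 := a4 τ hτ 1 hone
    rw [AlgEquiv.one_apply, mul_one] at f1 f2
    have e5 : (Real.log ‖ι (a σ)‖ : ℂ) = (Real.log ‖ι (a τ)‖ : ℂ) := by
      rw [f1, f2, h.D_congr σ τ hσ hτ hst]
    exact_mod_cast e5
  obtain ⟨T, hT⟩ := Cpx.exists_rep' (H := F) (L := H) hfin
  obtain ⟨t0, ht0, -⟩ := hT.ex 1 hone
  set b : Qbar := ∑ t ∈ T, a t with hb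
  have hbpos : Pool.Agent.U131.SR.Pos ι b := pos_sum ⟨t0, ht0⟩ fun t ht => hap t (hT.fix t ht)
  have hb0 : b ≠ 0 := by
    intro h0
    have h1 := hbpos.2
    rw [h0, map_zero, Complex.zero_re] at h1
    exact lt_irrefl _ h1
  have hact : ∀ σ : GQ, Fixes F σ → σ b = (a σ)⁻¹ * b := by
    intro σ hσ
    have h1 : ∀ t ∈ T, ∃ r' ∈ T, ∀ x ∈ H, (σ * t) x = r' x := fun t ht =>
      hT.ex _ (hσ.mul (hT.fix t ht))
    choose! φ hφ1 hφ2 using h1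
    have hinj : Set.InjOn φ (T : Set GQ) := by
      intro r hr r' hr' he
      refine hT.inj r hr r' hr' fun x hx => ?_
      have e1 := hφ2 r hr x hx
      have e2 := hφ2 r' hr' x hx
      rw [he, ← e2] at e1
      exact σ.injective e1
    have h2 : ∑ t ∈ T, a (σ * t) = ∑ t ∈ T, a t := by
      refine Finset.sum_bij (fun r _ => φ r) (fun r hr => hφ1 r hr)
        (fun r hr r' hr' he => hinj hr hr' he) ?_ ?_
      · intro c hc
        have hsurj := Finset.surj_on_of_inj_on_of_card_le (s := T) (t := T) (fun r _ => φ r)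
          (fun r hr => hφ1 r hr) (fun r r' hr hr' he => hinj hr hr' he) le_rfl c hc
        obtain ⟨r, hr, he⟩ := hsurj
        exact ⟨r, hr, he.symm⟩
      · intro r hr
        exact hcongr _ _ (hσ.mul (hT.fix r hr)) (hT.fix _ (hφ1 r hr)) (hφ2 r hr)
    have h3 : ∑ t ∈ T, a (σ * t) = a σ * σ b := by
      rw [hb, map_sum, Finset.mul_sum]
      exact Finset.sum_congr rfl fun t ht => hcoc σ t hσ (hT.fix t ht)
    rw [h2] at h3
    rw [eq_inv_mul_iff_mul_eq₀ (a1 σ hσ)]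
    exact h3.symm
  refine ⟨b, sum_mem fun t ht => a0 t (hT.fix t ht), hb0, ?_, ?_⟩
  · intro σ hσ
    rw [hact σ hσ]
    exact Pos.mul (Pos.inv (hap σ hσ)) hbpos
  · refine Pool.Agent.K4H33.SK.mem_of_fixed F fun σ hσ => ?_
    rw [map_mul, map_pow, a3 σ hσ, hact σ hσ]
    have h1 := a1 σ hσ
    field_simp

/-- Q1 for the moduli `𝔪𝔮`, where the classes of the primes `𝔮` generate the ray class group
modulo `𝔪∞₂`, implies Q1 for `𝔪` up to the square root of one element of `F`. -/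
theorem twist_units {ι w : Qbar →+* ℂ} {F H : Sub} [NumberField F] {𝔪 : Ideals F}
    {art : Ideals F → GQ} {z : GQ} {Z : GQ → ℂ → ℂ} (h : RayBase ι w F H 𝔪 art z Z)
    {Q : Set (Ideals F)} (hQ : ∀ 𝔮 ∈ Q, Aux F 𝔪 𝔮 ∧ StarkMod ι F H (prd F 𝔪 𝔮) art)
    (hg : Generate F H art Q) :
    ∃ (δ : Qbar) (k : Ideals F → Qbar), TwistUnits ι F H 𝔪 art δ k := by
  have hset := h.setting
  have hall : ∀ g : GQ, Fixes F g → ∃ μ, Bas ι F H (fun σ => deriv (Z σ) 0) g μ ∧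
      PosAll ι F μ := by
    intro g hgF
    refine gen (set0 hset) (Q := PosAll ι F) (S := art '' Q) ?_ ?_ ?_ ?_ ?_ hgF (hg g hgF)
    · intro σ _
      rw [map_one]
      exact Pos.one
    · exact fun μ ν _ _ h1 h2 => pos_mul' h1 h2
    · intro μ _ h1 σ hσ
      rw [map_inv₀]
      exact Pos.inv (h1 σ hσ)
    · intro μ k _ hk h1 σ hσ
      exact h1 (σ * k) (hσ.mul hk)
    · rintro _ ⟨𝔮, hq, rfl⟩
      obtain ⟨hq1, hq2⟩ := hQ 𝔮 hq
      obtain ⟨Z', ε, h1, h2, h3, h4, h5⟩ := mod_pos h hq2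
      exact ⟨art_fix hset hq1, ε, to_bas hset hq1 h1 h2 h3 h4, h5⟩
  obtain ⟨η, hη, hpos⟩ := hall z (z_fix hset)
  obtain ⟨b, hbH, hb0, hbp, hbF⟩ := twist (set0 hset) h.rcf.fin hall hη hpos
  have hone : Fixes F (1 : GQ) := Fixes.one F
  have hδp : Pool.Agent.U131.SR.Pos ι (η * b ^ 2) := by
    have h3 := hpos 1 hone
    have h4 := hbp 1 hone
    rw [AlgEquiv.one_apply] at h3 h4
    rw [pow_two]
    exact Pos.mul h3 (Pos.mul h4 h4)
  refine ⟨η * b ^ 2, fun 𝔟 => (art 𝔟 b)⁻¹, hbF, hδp, fun 𝔟 hb => ?_⟩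
  have hf : Fixes F (art 𝔟) := h.rcf.artin.down.fix 𝔟 hb
  have hz := h.hecke (art 𝔟) hf
  have hab0 : art 𝔟 b ≠ 0 := ne_app hb0
  have key : η * b ^ 2 * ((art 𝔟 b)⁻¹) ^ 2 = art 𝔟 η := by
    have h1 : art 𝔟 (η * b ^ 2) = η * b ^ 2 := hf _ hbF
    rw [map_mul, map_pow] at h1
    rw [← h1, inv_pow, mul_assoc, mul_inv_cancel₀ (pow_ne_zero 2 hab0), mul_one]
  have hkp : Pool.Agent.U131.SR.Pos ι (art 𝔟 b)⁻¹ := Pos.inv (hbp (art 𝔟) hf)
  refine ⟨inv_mem (h.rcf.galois _ hf b hbH), hkp, ⟨Z (art 𝔟), ?_, hz.2.1, ?_⟩, ?_, ?_, ?_, ?_⟩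
  · have e3 : cnt F H 𝔪 art (art 𝔟) = classCnt ι F 𝔪 𝔟 := by
      rw [classCnt_eq]
      exact Pool.Agent.U131.SR.rayCnt_eq (field_down h.rcf.inj) hb
    rw [← e3]
    exact hz.1
  · have e1 := hη.log (art 𝔟) hf
    have e2 := D_z' hset hf
    rw [e2] at e1
    have hr : (deriv (Z (art 𝔟)) 0).im = 0 := zeta_real hz.1
    set d : ℂ := deriv (Z (art 𝔟)) 0 with hd
    have e4 : (Real.log ‖ι (art 𝔟 η)‖ : ℂ) = -2 * (2 * d) := by
      rw [e1]; ring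
    have e5 := Pool.Agent.U131.SR.pos_exp (hpos (art 𝔟) hf) e4
    have e6 : d = (d.re : ℂ) := Complex.ext (by simp) (by simp [hr])
    have e7 : ι (η * b ^ 2) = ((ι (η * b ^ 2)).re : ℂ) :=
      Complex.ext (Complex.ofReal_re _).symm (by rw [Complex.ofReal_im]; exact hδp.1)
    have e8 : ι (art 𝔟 b)⁻¹ = ((ι (art 𝔟 b)⁻¹).re : ℂ) :=
      Complex.ext (Complex.ofReal_re _).symm (by rw [Complex.ofReal_im]; exact hkp.1)
    have e9 : (ι (η * b ^ 2)).re * (ι (art 𝔟 b)⁻¹).re ^ 2 = Real.exp (-2 * d.re) ^ 2 := by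
      have f1 : ι (η * b ^ 2 * ((art 𝔟 b)⁻¹) ^ 2) = Complex.exp (-2 * (2 * d)) := by
        rw [key, e5]
      rw [map_mul, map_pow, e7, e8, e6] at f1
      have f2 : Complex.exp (-2 * (2 * (d.re : ℂ))) = ((Real.exp (-2 * d.re) ^ 2 : ℝ) : ℂ) := by
        rw [← Real.exp_nat_mul]
        push_cast
        congr 1
        ring
      rw [f2] at f1
      exact_mod_cast f1
    have e10 : Real.sqrt (ι (η * b ^ 2)).re * (ι (art 𝔟 b)⁻¹).re = Real.exp (-2 * d.re) := by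
      have g1 : 0 ≤ Real.sqrt (ι (η * b ^ 2)).re * (ι (art 𝔟 b)⁻¹).re :=
        mul_nonneg (Real.sqrt_nonneg _) hkp.2.le
      have g2 : (Real.sqrt (ι (η * b ^ 2)).re * (ι (art 𝔟 b)⁻¹).re) ^ 2 =
          Real.exp (-2 * d.re) ^ 2 := by
        rw [mul_pow, Real.sq_sqrt hδp.2.le, e9]
      exact (pow_left_inj₀ g1 (Real.exp_pos _).le two_ne_zero).1 g2
    show (Real.sqrt (ι (η * b ^ 2)).re : ℂ) * ι (art 𝔟 b)⁻¹ = Complex.exp (-2 * d)
    rw [e8, e6]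
    have e11 : Complex.exp (-2 * (d.re : ℂ)) = ((Real.exp (-2 * d.re) : ℝ) : ℂ) := by
      push_cast
      rfl
    rw [e11, ← e10]
    push_cast
    rfl
  · intro 𝔠 hc
    have h1 : art (prd F 𝔠 𝔟) b = art 𝔠 (art 𝔟 b) := h.rcf.artin.mul 𝔠 𝔟 hc hb b hbH
    show art 𝔠 (art 𝔟 b)⁻¹ = (art (prd F 𝔠 𝔟) b)⁻¹
    rw [h1, map_inv₀]
  · intro 𝔠 hc hr
    have h1 : art 𝔟 b = art 𝔠 b := (h.rcf.inj 𝔟 𝔠 hb hc).2 hr b hbH
    show (art 𝔟 b)⁻¹ = (art 𝔠 b)⁻¹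
    rw [h1]
  · rw [key]
    refine ⟨int_app hη.int, ?_⟩
    rw [← map_inv₀]
    exact int_app hη.int'
  · rw [key]
    intro v hv
    exact hη.circ (v.comp (art 𝔟 : Qbar →+* Qbar)) (comp_differ hf hv)

end Pool.Agent.U131.SX
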